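import Pool.Agent.T9h44.LG.Spec

/-!
# Weights (pieces S_c2, S_c1, S_ct, S_tm)
-/

set_option autoImplicit false

namespace Pool.Agent.T9h71.LG

open MeasureTheory Real Pool.Agent.T9h44.LG
open scoped ENNReal ComplexConjugate

/-- the weights `(1+x²)^(-p)` -/
noncomputable def wg (p : ℕ) (x : ℝ) : ℝ := ((1 + x ^ 2) ^ p)⁻¹

theorem om_eq (x : ℝ) : om x = wg 2 x := rfl

theorem psi3_eq (x : ℝ) : psi3 x = wg 3 x := rfl

theorem wg_pos (p : ℕ) (x : ℝ) : 0 < wg p x := by unfold wg; positivity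

theorem wg_le_one (p : ℕ) (x : ℝ) : wg p x ≤ 1 := by
  unfold wg
  exact inv_le_one_of_one_le₀ (one_le_pow₀ (by nlinarith [sq_nonneg x]))

theorem wg_mono {p q : ℕ} (h : p ≤ q) (x : ℝ) : wg q x ≤ wg p x := by
  unfold wg
  exact inv_anti₀ (by positivity) (pow_le_pow_right₀ (by nlinarith [sq_nonneg x]) h)

theorem wg_cont (p : ℕ) : Continuous (wg p) := by
  unfold wg
  exact Continuous.inv₀ (by fun_prop) fun x => by positivity

theorem wg_meas (p : ℕ) : Measurable (wg p) := (wg_cont p).measurable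

theorem wg_lint (p : ℕ) (hp : 1 ≤ p) : ∫⁻ x : ℝ, ENNReal.ofReal (wg p x) < ⊤ := by
  have h1 : Integrable (wg 1) := by
    have := integrable_inv_one_add_sq
    refine this.congr (Filter.Eventually.of_forall fun x => ?_)
    simp [wg]
  calc ∫⁻ x : ℝ, ENNReal.ofReal (wg p x) ≤ ∫⁻ x : ℝ, ENNReal.ofReal (wg 1 x) :=
        lintegral_mono fun x => ENNReal.ofReal_le_ofReal (wg_mono hp x)
    _ < ⊤ := by
        rw [← ofReal_integral_eq_lintegral_ofReal h1
          (Filter.Eventually.of_forall fun x => (wg_pos 1 x).le)]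
        exact ENNReal.ofReal_lt_top

/-- comparison of the weight at points at a distance at most `1` -/
theorem wg_near (p : ℕ) {x y : ℝ} (h : |x - y| ≤ 1) : wg p x ≤ 3 ^ p * wg p y := by
  unfold wg
  have h1 : 1 + y ^ 2 ≤ 3 * (1 + x ^ 2) := by
    have h2 : (x - y) ^ 2 ≤ 1 := by
      rw [← sq_abs]
      exact pow_le_one₀ (abs_nonneg _) h
    nlinarith [sq_nonneg (2 * x - y), sq_nonneg x]
  have h3 : (1 + y ^ 2) ^ p ≤ 3 ^ p * (1 + x ^ 2) ^ p := by
    rw [← mul_pow]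
    exact pow_le_pow_left₀ (by positivity) h1 p
  rw [← div_eq_mul_inv, le_div_iff₀ (by positivity), inv_mul_le_iff₀ (by positivity), mul_comm]
  exact h3

/-- the weight is dominated by its convolution with `κ` -/
theorem wg_conv {κ κh : ℝ → ℝ} (hk : Kap κ κh) (p : ℕ) : ∃ C : ℝ, 0 < C ∧ ∀ x : ℝ,
    ENNReal.ofReal (wg p x) ≤ ENNReal.ofReal C *
      ∫⁻ y : ℝ, ENNReal.ofReal (wg p y) * ENNReal.ofReal (κ (x - y)) := by
  obtain ⟨c, hc, hc'⟩ := hk.2.2.2.2.1
  set c' : ℝ := min c 1 with hc1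
  have hc0 : 0 < c' := lt_min hc one_pos
  refine ⟨3 ^ p / (c * (2 * c')), by positivity, fun x => ?_⟩
  have h1 : ∫⁻ _y in Set.Icc (x - c') (x + c'), ENNReal.ofReal (wg p x / 3 ^ p * c) ≤
      ∫⁻ y : ℝ, ENNReal.ofReal (wg p y) * ENNReal.ofReal (κ (x - y)) := by
    refine le_trans (setLIntegral_mono' measurableSet_Icc fun y hy => ?_)
      (setLIntegral_le_lintegral (Set.Icc (x - c') (x + c')) _)
    have h2 : |x - y| ≤ c' := by
      rw [abs_le]
      constructor <;> linarith [hy.1, hy.2]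
    rw [← ENNReal.ofReal_mul (wg_pos p y).le]
    refine ENNReal.ofReal_le_ofReal ?_
    have h3 := wg_near p (h2.trans (min_le_right _ _))
    have h4 := hc' (x - y) (h2.trans (min_le_left _ _))
    have h5 : wg p x / 3 ^ p ≤ wg p y := by
      rw [div_le_iff₀ (by positivity), mul_comm]
      exact h3
    exact mul_le_mul h5 h4 hc.le (wg_pos p y).le
  rw [setLIntegral_const, Real.volume_Icc, ← ENNReal.ofReal_mul
    (by have := wg_pos p x; positivity)] at h1
  refine le_trans (le_of_eq ?_) (mul_le_mul_right h1 _)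
  rw [← ENNReal.ofReal_mul (by positivity)]
  congr 1
  field_simp
  ring

/-- convolutions of the weight with itself -/
theorem wg_self (p : ℕ) (x y : ℝ) : wg p y * wg p (x - y) ≤
    4 ^ p * wg p x * (wg p y + wg p (x - y)) := by
  have hy := wg_pos p y
  have hxy := wg_pos p (x - y)
  have key : ∀ z w : ℝ, x = z + w → |w| ≤ |z| → wg p z ≤ 4 ^ p * wg p x := by
    intro z w hx hz
    unfold wg
    have h1 : 1 + x ^ 2 ≤ 4 * (1 + z ^ 2) := by
      have : w ^ 2 ≤ z ^ 2 := sq_le_sq.2 hz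
      rw [hx]
      nlinarith [sq_nonneg (z - w), sq_nonneg z]
    have h3 : (1 + x ^ 2) ^ p ≤ 4 ^ p * (1 + z ^ 2) ^ p := by
      rw [← mul_pow]
      exact pow_le_pow_left₀ (by positivity) h1 p
    rw [← div_eq_mul_inv, le_div_iff₀ (by positivity), inv_mul_le_iff₀ (by positivity), mul_comm]
    exact h3
  have h4 : (0 : ℝ) < 4 ^ p * wg p x := by have := wg_pos p x; positivity
  rcases le_total |x - y| |y| with h | h
  · have h1 := key y (x - y) (by ring) h
    calc wg p y * wg p (x - y) ≤ 4 ^ p * wg p x * wg p (x - y) :=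
          mul_le_mul_of_nonneg_right h1 hxy.le
      _ ≤ _ := mul_le_mul_of_nonneg_left (by linarith) h4.le
  · have h1 := key (x - y) y (by ring) h
    calc wg p y * wg p (x - y) ≤ wg p y * (4 ^ p * wg p x) := mul_le_mul_of_nonneg_left h1 hy.le
      _ = 4 ^ p * wg p x * wg p y := by ring
      _ ≤ _ := mul_le_mul_of_nonneg_left (by linarith) h4.le

theorem wg_conv_self (p : ℕ) (hp : 1 ≤ p) : ∃ C : ℝ, 0 < C ∧ ∀ x : ℝ,
    ∫⁻ y : ℝ, ENNReal.ofReal (wg p y) * ENNReal.ofReal (wg p (x - y)) ≤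
      ENNReal.ofReal C * ENNReal.ofReal (wg p x) := by
  set I : ℝ≥0∞ := ∫⁻ x : ℝ, ENNReal.ofReal (wg p x) with hI
  have hI' : I ≠ ⊤ := (wg_lint p hp).ne
  refine ⟨4 ^ p * ((I + I).toReal + 1), by positivity, fun x => ?_⟩
  have hm : Measurable fun y : ℝ => ENNReal.ofReal (wg p y) := (wg_meas p).ennreal_ofReal
  calc ∫⁻ y : ℝ, ENNReal.ofReal (wg p y) * ENNReal.ofReal (wg p (x - y))
      ≤ ∫⁻ y : ℝ, ENNReal.ofReal (4 ^ p * wg p x) *
          (ENNReal.ofReal (wg p y) + ENNReal.ofReal (wg p (x - y))) := by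
        refine lintegral_mono fun y => ?_
        show ENNReal.ofReal (wg p y) * ENNReal.ofReal (wg p (x - y)) ≤
          ENNReal.ofReal (4 ^ p * wg p x) * (ENNReal.ofReal (wg p y) + ENNReal.ofReal (wg p (x - y)))
        rw [← ENNReal.ofReal_mul (wg_pos p y).le, ← ENNReal.ofReal_add (wg_pos p y).le
          (wg_pos p _).le, ← ENNReal.ofReal_mul (by have := wg_pos p x; positivity)]
        exact ENNReal.ofReal_le_ofReal (wg_self p x y)
    _ = ENNReal.ofReal (4 ^ p * wg p x) * (I + I) := by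
        rw [lintegral_const_mul' _ _ ENNReal.ofReal_ne_top, lintegral_add_left hm]
        congr 2
        exact lintegral_sub_left_eq_self (fun y => ENNReal.ofReal (wg p y)) x
    _ ≤ ENNReal.ofReal (4 ^ p * wg p x) * ENNReal.ofReal ((I + I).toReal + 1) := by
        gcongr
        have h1 : I + I = ENNReal.ofReal (I + I).toReal :=
          (ENNReal.ofReal_toReal (by simp [hI'])).symm
        calc I + I = ENNReal.ofReal (I + I).toReal := h1
          _ ≤ _ := ENNReal.ofReal_le_ofReal (by linarith)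
    _ = ENNReal.ofReal (4 ^ p * ((I + I).toReal + 1)) * ENNReal.ofReal (wg p x) := by
        rw [← ENNReal.ofReal_mul (by have := wg_pos p x; positivity),
          ← ENNReal.ofReal_mul (by positivity)]
        congr 1
        ring

/-- Cauchy-Schwarz with a weight -/
theorem cs_weight {α : Type} [MeasurableSpace α] (μ : Measure α) (w F : α → ℝ≥0∞)
    (hw : Measurable w) (hF : Measurable F) :
    (∫⁻ x, w x * F x ∂μ) ^ 2 ≤ 2 * (∫⁻ x, w x ∂μ) * ∫⁻ x, w x * F x ^ 2 ∂μ := by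
  have hm : Measurable fun x => w x * F x := hw.mul hF
  have hm2 : Measurable fun x => w x * F x ^ 2 := hw.mul (hF.pow_const 2)
  have h1 : (∫⁻ x, w x * F x ∂μ) ^ 2 = ∫⁻ x, ∫⁻ y, w x * F x * (w y * F y) ∂μ ∂μ := by
    rw [pow_two, ← lintegral_mul_const _ hm]
    refine lintegral_congr fun x => ?_
    rw [← lintegral_const_mul _ hm]
  rw [h1]
  calc ∫⁻ x, ∫⁻ y, w x * F x * (w y * F y) ∂μ ∂μ
      ≤ ∫⁻ x, ∫⁻ y, (w x * F x ^ 2 * w y + w x * (w y * F y ^ 2)) ∂μ ∂μ := by
        refine lintegral_mono fun x => lintegral_mono fun y => ?_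
        show w x * F x * (w y * F y) ≤ w x * F x ^ 2 * w y + w x * (w y * F y ^ 2)
        rcases le_total (F x) (F y) with h | h
        · calc w x * F x * (w y * F y) = w x * w y * (F x * F y) := by ring
            _ ≤ w x * w y * (F y * F y) := by gcongr
            _ = w x * (w y * F y ^ 2) := by ring
            _ ≤ _ := le_add_self
        · calc w x * F x * (w y * F y) = w x * w y * (F x * F y) := by ring
            _ ≤ w x * w y * (F x * F x) := by gcongr
            _ = w x * F x ^ 2 * w y := by ring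
            _ ≤ _ := le_self_add
    _ = ∫⁻ x, (w x * F x ^ 2 * (∫⁻ y, w y ∂μ) + w x * ∫⁻ y, w y * F y ^ 2 ∂μ) ∂μ := by
        refine lintegral_congr fun x => ?_
        rw [lintegral_add_left (hw.const_mul _), lintegral_const_mul _ hw,
          lintegral_const_mul _ hm2]
    _ = 2 * (∫⁻ x, w x ∂μ) * ∫⁻ x, w x * F x ^ 2 ∂μ := by
        rw [lintegral_add_left (hm2.mul_const _), lintegral_mul_const _ hm2,
          lintegral_mul_const _ hw]
        ring

/-- PIECE (C2) -/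
theorem s_c2 : S_c2 := by
  intro κ κh hk
  obtain ⟨C, hC⟩ := hk.2.2.2.1
  have hC0 : 0 ≤ C := by
    have h1 := hC 0
    have h2 := hk.2.2.1 0
    have h3 : psi3 0 = 1 := by simp [psi3]
    rw [h3, mul_one] at h1
    exact h2.trans h1
  refine ⟨(C + 1) ^ 2, by positivity, fun α s ρ hs hρ u z => ?_⟩
  unfold Av
  rw [← lintegral_const_mul' _ _ ENNReal.ofReal_ne_top]
  refine lintegral_mono fun z' => ?_
  show _ ≤ ENNReal.ofReal ((C + 1) ^ 2) * (ENNReal.ofReal (Wt α s ρ (z - z')) * u z')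
  rw [← mul_assoc, ← ENNReal.ofReal_mul (by positivity)]
  gcongr
  unfold Fe Wt
  have h1 : ∀ x, κ x ≤ (C + 1) * om x := by
    intro x
    calc κ x ≤ C * psi3 x := hC x
      _ ≤ (C + 1) * om x := by
        rw [psi3_eq, om_eq]
        have h2 := wg_mono (show 2 ≤ 3 by norm_num) x
        have h3 := wg_pos 3 x
        nlinarith
  set a := ((z - z').1 + α * (z - z').2) / ρ
  set b := s * (z - z').2 / ρ
  have h0 : 0 ≤ s / ρ ^ 2 := by positivity
  have h2 : κ a * κ b ≤ (C + 1) * om a * ((C + 1) * om b) :=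
    mul_le_mul (h1 a) (h1 b) (hk.2.2.1 b) (by rw [om_eq]; have := wg_pos 2 a; positivity)
  calc s / ρ ^ 2 * (κ a * κ b) ≤ s / ρ ^ 2 * ((C + 1) * om a * ((C + 1) * om b)) :=
        mul_le_mul_of_nonneg_left h2 h0
    _ = (C + 1) ^ 2 * (s / ρ ^ 2 * (om a * om b)) := by ring

theorem Fe_cont {κ : ℝ → ℝ} (hk : Continuous κ) (α s ρ : ℝ) : Continuous (Fe κ α s ρ) := by
  unfold Fe
  exact continuous_const.mul ((hk.comp (by fun_prop)).mul (hk.comp (by fun_prop)))

/-- the shift -/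
noncomputable def Lf (α s ρ : ℝ) (y : ℝ × ℝ) : ℝ × ℝ := (ρ * y.1 - α * (ρ * y.2 / s), ρ * y.2 / s)

theorem Lf_cont (α s ρ : ℝ) : Continuous (Lf α s ρ) := by
  unfold Lf
  fun_prop

/-- the weight on the plane -/
noncomputable def w2 (y : ℝ × ℝ) : ℝ≥0∞ := ENNReal.ofReal (wg 2 y.1) * ENNReal.ofReal (wg 2 y.2)

theorem w2_meas : Measurable w2 := by
  unfold w2
  exact ((wg_meas 2).comp measurable_fst).ennreal_ofReal.mul
    ((wg_meas 2).comp measurable_snd).ennreal_ofReal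

theorem w2_lint : ∫⁻ y, w2 y < ⊤ := by
  unfold w2
  rw [show (volume : Measure (ℝ × ℝ)) = (volume : Measure ℝ).prod volume from rfl,
    lintegral_prod_mul (wg_meas 2).ennreal_ofReal.aemeasurable (wg_meas 2).ennreal_ofReal.aemeasurable]
  exact ENNReal.mul_lt_top (wg_lint 2 (by norm_num)) (wg_lint 2 (by norm_num))

theorem Wt_le {κ κh : ℝ → ℝ} (hk : Kap κ κh) {C : ℝ}
    (hC : ∀ x : ℝ, ENNReal.ofReal (wg 2 x) ≤ ENNReal.ofReal C *
      ∫⁻ y : ℝ, ENNReal.ofReal (wg 2 y) * ENNReal.ofReal (κ (x - y)))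
    {α s ρ : ℝ} (hs : 0 < s) (hρ : 0 < ρ) (z : ℝ × ℝ) : ENNReal.ofReal (Wt α s ρ z) ≤
      ENNReal.ofReal C ^ 2 * ∫⁻ y, w2 y * ENNReal.ofReal (Fe κ α s ρ (z - Lf α s ρ y)) := by
  have h0 : 0 ≤ s / ρ ^ 2 := by positivity
  set a := (z.1 + α * z.2) / ρ with ha
  set b := s * z.2 / ρ with hb
  have hF : ∀ y : ℝ × ℝ, w2 y * ENNReal.ofReal (Fe κ α s ρ (z - Lf α s ρ y)) =
      ENNReal.ofReal (s / ρ ^ 2) * ((ENNReal.ofReal (wg 2 y.1) * ENNReal.ofReal (κ (a - y.1))) *
        (ENNReal.ofReal (wg 2 y.2) * ENNReal.ofReal (κ (b - y.2)))) := by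
    intro y
    have e1 : ((z - Lf α s ρ y).1 + α * (z - Lf α s ρ y).2) / ρ = a - y.1 := by
      rw [ha]
      simp only [Lf, Prod.fst_sub, Prod.snd_sub]
      field_simp
      ring
    have e2 : s * (z - Lf α s ρ y).2 / ρ = b - y.2 := by
      rw [hb]
      simp only [Lf, Prod.snd_sub]
      field_simp
    unfold Fe w2
    rw [e1, e2, ENNReal.ofReal_mul h0, ENNReal.ofReal_mul (hk.2.2.1 _)]
    ring
  have hmk : ∀ c : ℝ, Measurable fun y : ℝ => ENNReal.ofReal (wg 2 y) * ENNReal.ofReal (κ (c - y)) :=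
    fun c => (wg_meas 2).ennreal_ofReal.mul
      ((hk.1.comp (by fun_prop : Continuous fun y : ℝ => c - y)).measurable).ennreal_ofReal
  have hI : ∫⁻ y, w2 y * ENNReal.ofReal (Fe κ α s ρ (z - Lf α s ρ y)) =
      ENNReal.ofReal (s / ρ ^ 2) *
        ((∫⁻ y : ℝ, ENNReal.ofReal (wg 2 y) * ENNReal.ofReal (κ (a - y))) *
        ∫⁻ y : ℝ, ENNReal.ofReal (wg 2 y) * ENNReal.ofReal (κ (b - y))) := by
    simp only [hF]
    rw [lintegral_const_mul' _ _ ENNReal.ofReal_ne_top]
    congr 1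
    rw [show (volume : Measure (ℝ × ℝ)) = (volume : Measure ℝ).prod volume from rfl]
    exact lintegral_prod_mul (hmk a).aemeasurable (hmk b).aemeasurable
  have hW : ENNReal.ofReal (Wt α s ρ z) =
      ENNReal.ofReal (s / ρ ^ 2) * (ENNReal.ofReal (wg 2 a) * ENNReal.ofReal (wg 2 b)) := by
    unfold Wt
    rw [om_eq, om_eq, ENNReal.ofReal_mul h0, ENNReal.ofReal_mul (wg_pos 2 _).le]
  rw [hI, hW]
  calc ENNReal.ofReal (s / ρ ^ 2) * (ENNReal.ofReal (wg 2 a) * ENNReal.ofReal (wg 2 b))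
      ≤ ENNReal.ofReal (s / ρ ^ 2) * ((ENNReal.ofReal C *
          ∫⁻ y : ℝ, ENNReal.ofReal (wg 2 y) * ENNReal.ofReal (κ (a - y))) *
          (ENNReal.ofReal C * ∫⁻ y : ℝ, ENNReal.ofReal (wg 2 y) * ENNReal.ofReal (κ (b - y)))) := by
        gcongr
        · exact hC a
        · exact hC b
    _ = _ := by ring

/-- PIECE (C1) -/
theorem s_c1 : S_c1 := by
  intro κ κh hk
  obtain ⟨C, hC0, hC⟩ := wg_conv hk 2
  set W : ℝ≥0∞ := ∫⁻ y, w2 y with hWd
  have hW : W ≠ ⊤ := w2_lint.ne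
  set D : ℝ≥0∞ := ENNReal.ofReal C ^ 4 * (2 * W ^ 2) with hD
  have hDt : D ≠ ⊤ := by
    rw [hD]
    exact ENNReal.mul_ne_top (ENNReal.pow_ne_top ENNReal.ofReal_ne_top)
      (ENNReal.mul_ne_top (by norm_num) (ENNReal.pow_ne_top hW))
  refine ⟨D.toReal + 1, by positivity, fun α s ρ hs hρ u hu => ?_⟩
  have hDle : D ≤ ENNReal.ofReal (D.toReal + 1) := by
    calc D = ENNReal.ofReal D.toReal := (ENNReal.ofReal_toReal hDt).symm
      _ ≤ _ := ENNReal.ofReal_le_ofReal (by linarith)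
  set Φ : ℝ × ℝ → ℝ≥0∞ := fun z => ∫⁻ z' : ℝ × ℝ, ENNReal.ofReal (Fe κ α s ρ (z - z')) * u z' with hΦ
  have hFm : Measurable (Fe κ α s ρ) := (Fe_cont hk.1 α s ρ).measurable
  have hΦm : Measurable Φ := by
    refine Measurable.lintegral_prod_right'
      (f := fun q : (ℝ × ℝ) × (ℝ × ℝ) => ENNReal.ofReal (Fe κ α s ρ (q.1 - q.2)) * u q.2) ?_
    exact (hFm.comp (measurable_fst.sub measurable_snd)).ennreal_ofReal.mul (hu.comp measurable_snd)
  have hLm : Measurable (Lf α s ρ) := (Lf_cont α s ρ).measurable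
  have hAv : ∀ z, Av α s ρ u z ≤ ENNReal.ofReal C ^ 2 * ∫⁻ y, w2 y * Φ (z - Lf α s ρ y) := by
    intro z
    unfold Av
    calc ∫⁻ z' : ℝ × ℝ, ENNReal.ofReal (Wt α s ρ (z - z')) * u z'
        ≤ ∫⁻ z' : ℝ × ℝ, (ENNReal.ofReal C ^ 2 *
            ∫⁻ y, w2 y * ENNReal.ofReal (Fe κ α s ρ (z - z' - Lf α s ρ y))) * u z' := by
          refine lintegral_mono fun z' => ?_
          gcongr
          exact Wt_le hk hC hs hρ (z - z')
      _ = ENNReal.ofReal C ^ 2 * ∫⁻ z' : ℝ × ℝ,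
            ∫⁻ y, w2 y * ENNReal.ofReal (Fe κ α s ρ (z - z' - Lf α s ρ y)) * u z' := by
          rw [← lintegral_const_mul' _ _ (ENNReal.pow_ne_top ENNReal.ofReal_ne_top)]
          refine lintegral_congr fun z' => ?_
          rw [mul_assoc]
          congr 1
          rw [lintegral_mul_const]
          exact w2_meas.mul (hFm.comp (measurable_const.sub hLm)).ennreal_ofReal
      _ = ENNReal.ofReal C ^ 2 * ∫⁻ y,
            ∫⁻ z' : ℝ × ℝ, w2 y * ENNReal.ofReal (Fe κ α s ρ (z - z' - Lf α s ρ y)) * u z' := by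
          congr 1
          refine lintegral_lintegral_swap ?_
          refine Measurable.aemeasurable ?_
          exact ((w2_meas.comp measurable_snd).mul (hFm.comp
            ((measurable_const.sub measurable_fst).sub (hLm.comp measurable_snd))).ennreal_ofReal).mul
            (hu.comp measurable_fst)
      _ = ENNReal.ofReal C ^ 2 * ∫⁻ y, w2 y * Φ (z - Lf α s ρ y) := by
          congr 1
          refine lintegral_congr fun y => ?_
          rw [hΦ]
          simp only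
          rw [← lintegral_const_mul]
          · refine lintegral_congr fun z' => ?_
            rw [mul_assoc]
            congr 4
            abel
          · exact (hFm.comp (measurable_const.sub measurable_id)).ennreal_ofReal.mul hu
  calc ∫⁻ z : ℝ × ℝ, Av α s ρ u z ^ 2
      ≤ ∫⁻ z : ℝ × ℝ, ENNReal.ofReal C ^ 4 * (2 * W * ∫⁻ y, w2 y * Φ (z - Lf α s ρ y) ^ 2) := by
        refine lintegral_mono fun z => ?_
        calc Av α s ρ u z ^ 2 ≤ (ENNReal.ofReal C ^ 2 * ∫⁻ y, w2 y * Φ (z - Lf α s ρ y)) ^ 2 := by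
              gcongr
              exact hAv z
          _ = ENNReal.ofReal C ^ 4 * (∫⁻ y, w2 y * Φ (z - Lf α s ρ y)) ^ 2 := by ring
          _ ≤ _ := by
              gcongr
              exact cs_weight _ _ _ w2_meas (hΦm.comp (measurable_const.sub hLm))
    _ = ENNReal.ofReal C ^ 4 * (2 * W) * ∫⁻ z : ℝ × ℝ, ∫⁻ y, w2 y * Φ (z - Lf α s ρ y) ^ 2 := by
        rw [← lintegral_const_mul' (ENNReal.ofReal C ^ 4 * (2 * W)) _
          (ENNReal.mul_ne_top (ENNReal.pow_ne_top ENNReal.ofReal_ne_top)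
            (ENNReal.mul_ne_top (by norm_num) hW))]
        refine lintegral_congr fun z => ?_
        ring
    _ = ENNReal.ofReal C ^ 4 * (2 * W) * ∫⁻ y, ∫⁻ z : ℝ × ℝ, w2 y * Φ (z - Lf α s ρ y) ^ 2 := by
        congr 1
        refine lintegral_lintegral_swap ?_
        refine Measurable.aemeasurable ?_
        exact (w2_meas.comp measurable_snd).mul
          ((hΦm.comp (measurable_fst.sub (hLm.comp measurable_snd))).pow_const 2)
    _ = ENNReal.ofReal C ^ 4 * (2 * W) * ∫⁻ y, w2 y * ∫⁻ z : ℝ × ℝ, Φ z ^ 2 := by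
        congr 1
        refine lintegral_congr fun y => ?_
        rw [lintegral_const_mul]
        · congr 1
          exact lintegral_sub_right_eq_self (fun z => Φ z ^ 2) (Lf α s ρ y)
        · exact (hΦm.comp (measurable_id.sub measurable_const)).pow_const 2
    _ = D * ∫⁻ z : ℝ × ℝ, Φ z ^ 2 := by
        rw [lintegral_mul_const _ w2_meas, hD]
        ring
    _ ≤ ENNReal.ofReal (D.toReal + 1) * ∫⁻ z : ℝ × ℝ, Φ z ^ 2 := by gcongr

/-- transfer of an inequality from the kernels to the weights -/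
theorem transfer {T : ℝ → ℝ → ℝ≥0∞} {P Q f v : ℝ → ℝ≥0∞} {C₁ C₂ A : ℝ≥0∞}
    (hT : Measurable (Function.uncurry T)) (hQ : Measurable Q) (hf : Measurable f)
    (hv : Measurable v) (h1 : ∀ γ, P γ ≤ C₁ * ∫⁻ y, Q y * T y γ)
    (h2 : ∀ γ, ∫⁻ y, Q y * T y γ ≤ C₂ * P γ) (hC₁ : C₁ ≠ ⊤) (hC₂ : C₂ ≠ ⊤)
    (hyp : ∀ y, ∫⁻ γ, T y γ * f γ ≤ A * ∫⁻ γ, T y γ * v γ) :
    ∫⁻ γ, P γ * f γ ≤ C₁ * C₂ * A * ∫⁻ γ, P γ * v γ := by
  have hT1 : ∀ y, Measurable (T y) := fun y => hT.comp measurable_prodMk_left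
  have hT2 : ∀ γ, Measurable fun y => T y γ := fun γ => hT.comp measurable_prodMk_right
  have swap : ∀ g : ℝ → ℝ≥0∞, Measurable g → ∫⁻ γ, (∫⁻ y, Q y * T y γ) * g γ =
      ∫⁻ y, Q y * ∫⁻ γ, T y γ * g γ := by
    intro g hg
    calc ∫⁻ γ, (∫⁻ y, Q y * T y γ) * g γ = ∫⁻ γ, ∫⁻ y, Q y * T y γ * g γ := by
          refine lintegral_congr fun γ => ?_
          have hm : Measurable fun y => Q y * T y γ := hQ.mul (hT2 γ)
          exact (lintegral_mul_const (g γ) hm).symm
      _ = ∫⁻ y, ∫⁻ γ, Q y * T y γ * g γ := by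
          refine lintegral_lintegral_swap ?_
          refine Measurable.aemeasurable ?_
          exact ((hQ.comp measurable_snd).mul (hT.comp measurable_swap)).mul (hg.comp measurable_fst)
      _ = ∫⁻ y, Q y * ∫⁻ γ, T y γ * g γ := by
          refine lintegral_congr fun y => ?_
          have hm : Measurable fun γ => T y γ * g γ := (hT1 y).mul hg
          refine Eq.trans ?_ (lintegral_const_mul (Q y) hm)
          refine lintegral_congr fun γ => ?_
          ring
  have hTv : Measurable fun y => ∫⁻ γ, T y γ * v γ := by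
    refine Measurable.lintegral_prod_right' (f := fun q : ℝ × ℝ => T q.1 q.2 * v q.2) ?_
    exact hT.mul (hv.comp measurable_snd)
  calc ∫⁻ γ, P γ * f γ ≤ ∫⁻ γ, C₁ * ((∫⁻ y, Q y * T y γ) * f γ) := by
        refine lintegral_mono fun γ => ?_
        show P γ * f γ ≤ C₁ * ((∫⁻ y, Q y * T y γ) * f γ)
        rw [← mul_assoc]
        gcongr
        exact h1 γ
    _ = C₁ * ∫⁻ y, Q y * ∫⁻ γ, T y γ * f γ := by
        rw [lintegral_const_mul' _ _ hC₁, swap f hf]
    _ ≤ C₁ * ∫⁻ y, A * (Q y * ∫⁻ γ, T y γ * v γ) := by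
        refine mul_le_mul_right (lintegral_mono fun y => ?_) _
        show Q y * ∫⁻ γ, T y γ * f γ ≤ A * (Q y * ∫⁻ γ, T y γ * v γ)
        calc Q y * ∫⁻ γ, T y γ * f γ ≤ Q y * (A * ∫⁻ γ, T y γ * v γ) := mul_le_mul_right (hyp y) _
          _ = _ := by ring
    _ = C₁ * (A * ∫⁻ γ, (∫⁻ y, Q y * T y γ) * v γ) := by
        have hm : Measurable fun y => Q y * ∫⁻ γ, T y γ * v γ := hQ.mul hTv
        rw [lintegral_const_mul A hm, swap v hv]
    _ ≤ C₁ * (A * ∫⁻ γ, C₂ * (P γ * v γ)) := by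
        refine mul_le_mul_right (mul_le_mul_right (lintegral_mono fun γ => ?_) _) _
        show (∫⁻ y, Q y * T y γ) * v γ ≤ C₂ * (P γ * v γ)
        calc (∫⁻ y, Q y * T y γ) * v γ ≤ C₂ * P γ * v γ := mul_le_mul_left (h2 γ) _
          _ = _ := by ring
    _ = C₁ * C₂ * A * ∫⁻ γ, P γ * v γ := by
        rw [lintegral_const_mul' _ _ hC₂]
        ring

/-- PIECE (CT) -/
theorem s_ct : S_ct := by
  intro κ κh hk
  obtain ⟨C, hC0, hC⟩ := wg_conv hk 3
  obtain ⟨B, hB⟩ := hk.2.2.2.1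
  obtain ⟨D, hD0, hD⟩ := wg_conv_self 3 (by norm_num)
  have hB0 : 0 ≤ B := by
    have h1 := hB 0
    have h2 := hk.2.2.1 0
    have h3 : psi3 0 = 1 := by simp [psi3]
    rw [h3, mul_one] at h1
    exact h2.trans h1
  refine ⟨C * ((B + 1) * D), by positivity, fun R f v A hR hf hv hyp c => ?_⟩
  have hκm : Measurable κ := hk.1.measurable
  have e : ∀ y γ : ℝ, (γ - (c + R * y)) / R = (γ - c) / R - y := by
    intro y γ
    field_simp
    ring
  have h2 : ∀ x : ℝ, ∫⁻ y : ℝ, ENNReal.ofReal (wg 3 y) * ENNReal.ofReal (κ (x - y)) ≤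
      ENNReal.ofReal ((B + 1) * D) * ENNReal.ofReal (wg 3 x) := by
    intro x
    calc ∫⁻ y : ℝ, ENNReal.ofReal (wg 3 y) * ENNReal.ofReal (κ (x - y))
        ≤ ∫⁻ y : ℝ, ENNReal.ofReal (B + 1) *
            (ENNReal.ofReal (wg 3 y) * ENNReal.ofReal (wg 3 (x - y))) := by
          refine lintegral_mono fun y => ?_
          show ENNReal.ofReal (wg 3 y) * ENNReal.ofReal (κ (x - y)) ≤ ENNReal.ofReal (B + 1) *
            (ENNReal.ofReal (wg 3 y) * ENNReal.ofReal (wg 3 (x - y)))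
          have h3 : ENNReal.ofReal (κ (x - y)) ≤
              ENNReal.ofReal (B + 1) * ENNReal.ofReal (wg 3 (x - y)) := by
            rw [← ENNReal.ofReal_mul (by positivity)]
            refine ENNReal.ofReal_le_ofReal ?_
            have h4 := hB (x - y)
            rw [psi3_eq] at h4
            have h5 := wg_pos 3 (x - y)
            nlinarith
          calc ENNReal.ofReal (wg 3 y) * ENNReal.ofReal (κ (x - y))
              ≤ ENNReal.ofReal (wg 3 y) * (ENNReal.ofReal (B + 1) * ENNReal.ofReal (wg 3 (x - y))) := by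
                gcongr
            _ = _ := by ring
      _ = ENNReal.ofReal (B + 1) *
            ∫⁻ y : ℝ, ENNReal.ofReal (wg 3 y) * ENNReal.ofReal (wg 3 (x - y)) :=
          lintegral_const_mul' _ _ ENNReal.ofReal_ne_top
      _ ≤ ENNReal.ofReal (B + 1) * (ENNReal.ofReal D * ENNReal.ofReal (wg 3 x)) := by
          gcongr
          exact hD x
      _ = _ := by
          rw [ENNReal.ofReal_mul (by positivity)]
          ring
  have main := transfer (T := fun y γ => ENNReal.ofReal (κ ((γ - (c + R * y)) / R)))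
    (P := fun γ => ENNReal.ofReal (wg 3 ((γ - c) / R))) (Q := fun y => ENNReal.ofReal (wg 3 y))
    (f := f) (v := v) (C₁ := ENNReal.ofReal C) (C₂ := ENNReal.ofReal ((B + 1) * D)) (A := A)
    (by
      refine (hκm.comp ?_).ennreal_ofReal
      fun_prop)
    ((wg_meas 3).ennreal_ofReal) hf hv
    (fun γ => by simp only [e]; exact hC _) (fun γ => by simp only [e]; exact h2 _)
    ENNReal.ofReal_ne_top ENNReal.ofReal_ne_top (fun y => hyp (c + R * y))
  rw [ENNReal.ofReal_mul hC0.le]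
  exact main

theorem lint_scale (f : ℝ → ℝ≥0∞) (hf : Measurable f) {a : ℝ} (ha : 0 < a) :
    ENNReal.ofReal a * ∫⁻ x : ℝ, f (a * x) = ∫⁻ x : ℝ, f x := by
  have h1 : ∫⁻ x : ℝ, f (a * x) = ENNReal.ofReal |a⁻¹| * ∫⁻ x : ℝ, f x := by
    rw [← lintegral_map hf (measurable_const_mul a), Real.map_volume_mul_left ha.ne',
      lintegral_smul_measure, smul_eq_mul]
  rw [h1, ← mul_assoc, ← ENNReal.ofReal_mul ha.le, abs_of_pos (inv_pos.2 ha),
    mul_inv_cancel₀ ha.ne', ENNReal.ofReal_one, one_mul]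

/-- convolutions at two scales, pointwise -/
theorem wg_two {l : ℝ} (hl : 0 < l) (hl1 : l ≤ 1) (x y : ℝ) : wg 3 (l * y) * wg 3 (x - y) ≤
    wg 3 (l * x) * (64 * wg 3 (x - y) + 256 * (l * wg 3 (l * y))) := by
  have hx : 0 < (1 + (l * x) ^ 2) ^ 3 := by positivity
  have p1 := wg_pos 3 (l * y)
  have p2 := wg_pos 3 (x - y)
  have l1 := wg_le_one 3 (l * y)
  have hx' : wg 3 (l * x) = ((1 + (l * x) ^ 2) ^ 3)⁻¹ := rfl
  rw [hx', inv_mul_eq_div, le_div_iff₀ hx]
  rcases le_total |x - y| |y| with h | h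
  · have h1 : x ^ 2 ≤ 4 * y ^ 2 := by
      have h2 : (x - y) ^ 2 ≤ y ^ 2 := sq_le_sq.2 h
      nlinarith [sq_nonneg (x - 2 * y)]
    have h2 : wg 3 (l * y) * (1 + (l * x) ^ 2) ^ 3 ≤ 64 := by
      unfold wg
      rw [inv_mul_le_iff₀ (by positivity)]
      calc (1 + (l * x) ^ 2) ^ 3 ≤ (4 * (1 + (l * y) ^ 2)) ^ 3 := by
            refine pow_le_pow_left₀ (by positivity) ?_ 3
            have : l ^ 2 * x ^ 2 ≤ l ^ 2 * (4 * y ^ 2) := mul_le_mul_of_nonneg_left h1 (by positivity)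
            nlinarith
        _ = (1 + (l * y) ^ 2) ^ 3 * 64 := by ring
    calc wg 3 (l * y) * wg 3 (x - y) * (1 + (l * x) ^ 2) ^ 3
        = (wg 3 (l * y) * (1 + (l * x) ^ 2) ^ 3) * wg 3 (x - y) := by ring
      _ ≤ 64 * wg 3 (x - y) := mul_le_mul_of_nonneg_right h2 p2.le
      _ ≤ _ := by
          have : 0 ≤ l * wg 3 (l * y) := by positivity
          linarith
  · have h1 : x ^ 2 ≤ 4 * (x - y) ^ 2 := by
      have h2 : y ^ 2 ≤ (x - y) ^ 2 := sq_le_sq.2 h
      nlinarith [sq_nonneg (x - 2 * y)]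
    set t := x - y with ht
    have h3 : wg 3 t * (1 + (l * x) ^ 2) ^ 3 ≤ 4 * wg 3 t + 256 * l ^ 6 := by
      unfold wg
      have e1 : (1 + (l * x) ^ 2) ≤ 1 + 4 * l ^ 2 * (1 + t ^ 2) := by
        have : l ^ 2 * x ^ 2 ≤ l ^ 2 * (4 * t ^ 2) := mul_le_mul_of_nonneg_left h1 (by positivity)
        nlinarith [sq_nonneg l]
      have e2 : (1 + (l * x) ^ 2) ^ 3 ≤ (1 + 4 * l ^ 2 * (1 + t ^ 2)) ^ 3 :=
        pow_le_pow_left₀ (by positivity) e1 3
      have e3 : (1 + 4 * l ^ 2 * (1 + t ^ 2)) ^ 3 ≤ 4 * (1 + (4 * l ^ 2 * (1 + t ^ 2)) ^ 3) := by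
        set b := 4 * l ^ 2 * (1 + t ^ 2) with hb
        have hb0 : 0 ≤ b := by positivity
        nlinarith [mul_nonneg (by positivity : 0 ≤ 1 + b) (sq_nonneg (1 - b))]
      rw [inv_mul_le_iff₀ (by positivity)]
      calc (1 + (l * x) ^ 2) ^ 3 ≤ 4 * (1 + (4 * l ^ 2 * (1 + t ^ 2)) ^ 3) := e2.trans e3
        _ = (1 + t ^ 2) ^ 3 * (4 * ((1 + t ^ 2) ^ 3)⁻¹ + 256 * l ^ 6) := by
            field_simp
            ring
    have h6 : l ^ 6 ≤ l := by
      calc l ^ 6 ≤ l ^ 1 := pow_le_pow_of_le_one hl.le hl1 (by norm_num)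
        _ = l := pow_one l
    calc wg 3 (l * y) * wg 3 t * (1 + (l * x) ^ 2) ^ 3
        = wg 3 (l * y) * (wg 3 t * (1 + (l * x) ^ 2) ^ 3) := by ring
      _ ≤ wg 3 (l * y) * (4 * wg 3 t + 256 * l ^ 6) := mul_le_mul_of_nonneg_left h3 p1.le
      _ = 4 * (wg 3 (l * y) * wg 3 t) + 256 * (l ^ 6 * wg 3 (l * y)) := by ring
      _ ≤ 64 * wg 3 t + 256 * (l * wg 3 (l * y)) := by
          have a1 : wg 3 (l * y) * wg 3 t ≤ wg 3 t := by nlinarith
          have a2 : l ^ 6 * wg 3 (l * y) ≤ l * wg 3 (l * y) := mul_le_mul_of_nonneg_right h6 p1.le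
          nlinarith

/-- PIECE (TM) -/
theorem s_tm : S_tm := by
  set I : ℝ≥0∞ := ∫⁻ x : ℝ, ENNReal.ofReal (wg 3 x) with hI
  have hI' : I ≠ ⊤ := (wg_lint 3 (by norm_num)).ne
  refine ⟨108 * (320 * (I.toReal + 1)), by positivity, fun R₂ R u v A hR₂ hR hu hv hyp => ?_⟩
  have hR0 : 0 < R := hR₂.trans_le hR
  set l : ℝ := R₂ / R with hl
  have hl0 : 0 < l := by positivity
  have hl1 : l ≤ 1 := (div_le_one hR0).2 hR
  have e : ∀ y γ : ℝ, (γ - R₂ * y) / R₂ = γ / R₂ - y := by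
    intro y γ
    field_simp
  have e' : ∀ γ : ℝ, γ / R = l * (γ / R₂) := by
    intro γ
    rw [hl]
    field_simp
  have hm : Measurable fun y : ℝ => ENNReal.ofReal (wg 3 y) := (wg_meas 3).ennreal_ofReal
  have lower : ∀ x : ℝ, ENNReal.ofReal (wg 3 (l * x)) ≤ ENNReal.ofReal 108 *
      ∫⁻ y : ℝ, ENNReal.ofReal (wg 3 (l * y)) * ENNReal.ofReal (wg 3 (x - y)) := by
    intro x
    have h1 : ∫⁻ _y in Set.Icc (x - 1) (x + 1), ENNReal.ofReal (wg 3 (l * x) / 27 * (1 / 8)) ≤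
        ∫⁻ y : ℝ, ENNReal.ofReal (wg 3 (l * y)) * ENNReal.ofReal (wg 3 (x - y)) := by
      refine le_trans (setLIntegral_mono' measurableSet_Icc fun y hy => ?_)
        (setLIntegral_le_lintegral (Set.Icc (x - 1) (x + 1)) _)
      have h2 : |x - y| ≤ 1 := by
        rw [abs_le]
        constructor <;> linarith [hy.1, hy.2]
      rw [← ENNReal.ofReal_mul (wg_pos 3 _).le]
      refine ENNReal.ofReal_le_ofReal ?_
      have h3 : |l * x - l * y| ≤ 1 := by
        rw [← mul_sub, abs_mul, abs_of_pos hl0]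
        calc l * |x - y| ≤ 1 * 1 := mul_le_mul hl1 h2 (abs_nonneg _) zero_le_one
          _ = 1 := one_mul 1
      have h4 := wg_near 3 h3
      have h5 : wg 3 (l * x) / 27 ≤ wg 3 (l * y) := by
        rw [div_le_iff₀ (by norm_num)]
        linarith
      have h6 : 1 / 8 ≤ wg 3 (x - y) := by
        unfold wg
        rw [one_div]
        refine inv_anti₀ (by positivity) ?_
        have h7 : (x - y) ^ 2 ≤ 1 := by
          rw [← sq_abs]
          exact pow_le_one₀ (abs_nonneg _) h2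
        calc (1 + (x - y) ^ 2) ^ 3 ≤ (1 + 1) ^ 3 := pow_le_pow_left₀ (by positivity) (by linarith) 3
          _ = 8 := by norm_num
      exact mul_le_mul h5 h6 (by norm_num) (wg_pos 3 _).le
    rw [setLIntegral_const, Real.volume_Icc, ← ENNReal.ofReal_mul
      (by have := wg_pos 3 (l * x); positivity)] at h1
    refine le_trans (le_of_eq ?_) (mul_le_mul_right h1 _)
    rw [← ENNReal.ofReal_mul (by positivity)]
    congr 1
    ring
  have upper : ∀ x : ℝ, ∫⁻ y : ℝ, ENNReal.ofReal (wg 3 (l * y)) * ENNReal.ofReal (wg 3 (x - y)) ≤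
      ENNReal.ofReal (320 * (I.toReal + 1)) * ENNReal.ofReal (wg 3 (l * x)) := by
    intro x
    have hm1 : Measurable fun y : ℝ => ENNReal.ofReal (wg 3 (x - y)) :=
      hm.comp (measurable_const.sub measurable_id)
    have hm2 : Measurable fun y : ℝ => ENNReal.ofReal (wg 3 (l * y)) :=
      hm.comp (measurable_const_mul l)
    calc ∫⁻ y : ℝ, ENNReal.ofReal (wg 3 (l * y)) * ENNReal.ofReal (wg 3 (x - y))
        ≤ ∫⁻ y : ℝ, ENNReal.ofReal (wg 3 (l * x)) * (ENNReal.ofReal 64 * ENNReal.ofReal (wg 3 (x - y))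
            + ENNReal.ofReal 256 * (ENNReal.ofReal l * ENNReal.ofReal (wg 3 (l * y)))) := by
          refine lintegral_mono fun y => ?_
          show ENNReal.ofReal (wg 3 (l * y)) * ENNReal.ofReal (wg 3 (x - y)) ≤
            ENNReal.ofReal (wg 3 (l * x)) * (ENNReal.ofReal 64 * ENNReal.ofReal (wg 3 (x - y))
            + ENNReal.ofReal 256 * (ENNReal.ofReal l * ENNReal.ofReal (wg 3 (l * y))))
          have a1 := (wg_pos 3 (l * y)).le
          have a2 := (wg_pos 3 (x - y)).le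
          have a3 := (wg_pos 3 (l * x)).le
          rw [← ENNReal.ofReal_mul a1, ← ENNReal.ofReal_mul (by norm_num),
            ← ENNReal.ofReal_mul hl0.le, ← ENNReal.ofReal_mul (by norm_num),
            ← ENNReal.ofReal_add (by positivity) (by positivity), ← ENNReal.ofReal_mul a3]
          exact ENNReal.ofReal_le_ofReal (wg_two hl0 hl1 x y)
      _ = ENNReal.ofReal (wg 3 (l * x)) * (ENNReal.ofReal 64 * I + ENNReal.ofReal 256 * I) := by
          rw [lintegral_const_mul' _ _ ENNReal.ofReal_ne_top,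
            lintegral_add_left (hm1.const_mul _), lintegral_const_mul' _ _ ENNReal.ofReal_ne_top,
            lintegral_const_mul' _ _ ENNReal.ofReal_ne_top,
            lintegral_const_mul' _ _ ENNReal.ofReal_ne_top,
            lint_scale (fun y => ENNReal.ofReal (wg 3 y)) hm hl0]
          congr 3
          exact lintegral_sub_left_eq_self (fun y => ENNReal.ofReal (wg 3 y)) x
      _ ≤ ENNReal.ofReal (wg 3 (l * x)) * ENNReal.ofReal (320 * (I.toReal + 1)) := by
          gcongr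
          rw [← add_mul, ← ENNReal.ofReal_add (by norm_num) (by norm_num)]
          have h1 : I = ENNReal.ofReal I.toReal := (ENNReal.ofReal_toReal hI').symm
          rw [h1, ← ENNReal.ofReal_mul (by norm_num), ENNReal.toReal_ofReal ENNReal.toReal_nonneg]
          refine ENNReal.ofReal_le_ofReal ?_
          have := I.toReal_nonneg
          norm_num
      _ = _ := mul_comm _ _
  have main := transfer (T := fun y γ => ENNReal.ofReal (wg 3 ((γ - R₂ * y) / R₂)))
    (P := fun γ => ENNReal.ofReal (wg 3 (γ / R))) (Q := fun y => ENNReal.ofReal (wg 3 (l * y)))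
    (f := u) (v := v) (C₁ := ENNReal.ofReal 108)
    (C₂ := ENNReal.ofReal (320 * (I.toReal + 1))) (A := A)
    (by
      refine ((wg_meas 3).comp ?_).ennreal_ofReal
      fun_prop)
    (hm.comp (measurable_const_mul l)) hu hv
    (fun γ => by simp only [e, e']; exact lower _) (fun γ => by simp only [e, e']; exact upper _)
    ENNReal.ofReal_ne_top ENNReal.ofReal_ne_top (fun y => hyp (R₂ * y))
  rw [ENNReal.ofReal_mul (by norm_num)]
  exact main

end Pool.Agent.T9h71.LG
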