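import Pool.Agent.T9h44.LG.Spec

/-!
# The band limited weight (piece S_kap)
-/

set_option autoImplicit false

namespace Pool.Agent.T9h71.LG

open MeasureTheory Real Pool.Agent.T9h44.LG
open scoped ENNReal ComplexConjugate FourierTransform SchwartzMap

/-- the bump -/
noncomputable def bR : ContDiffBump (0 : ℝ) := ⟨1 / 4, 1 / 2, by norm_num, by norm_num⟩

theorem bR_supp {x : ℝ} (h : bR x ≠ 0) : |x| < 1 / 2 := by
  have h1 : x ∈ Function.support bR := h
  rw [bR.support_eq, Metric.mem_ball, dist_zero_right, Real.norm_eq_abs] at h1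
  exact h1

theorem bR_one {x : ℝ} (h : |x| ≤ 1 / 4) : bR x = 1 := by
  apply bR.one_of_mem_closedBall
  rw [Metric.mem_closedBall, dist_zero_right, Real.norm_eq_abs]
  exact h

theorem bR_neg (x : ℝ) : bR (-x) = bR x := bR.neg x

theorem bR_nonneg (x : ℝ) : 0 ≤ bR x := bR.nonneg

theorem bR_le_one (x : ℝ) : bR x ≤ 1 := bR.le_one

/-- the complex bump -/
noncomputable def bC (x : ℝ) : ℂ := ((bR x : ℝ) : ℂ)

theorem bC_smooth : ContDiff ℝ (⊤ : ℕ∞) bC :=
  Complex.ofRealCLM.contDiff.comp bR.contDiff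

theorem bC_compact : HasCompactSupport bC :=
  bR.hasCompactSupport.comp_left (g := fun x : ℝ => (x : ℂ)) Complex.ofReal_zero

/-- the Schwartz function -/
noncomputable def bS : 𝓢(ℝ, ℂ) := bC_compact.toSchwartzMap bC_smooth

theorem bS_apply (x : ℝ) : bS x = bC x := rfl

/-- the autocorrelation -/
noncomputable def kh (ξ : ℝ) : ℝ := ∫ y : ℝ, bR y * bR (ξ - y)

theorem kh_neg (ξ : ℝ) : kh (-ξ) = kh ξ := by
  unfold kh
  rw [← integral_neg_eq_self]
  refine integral_congr_ae (Filter.Eventually.of_forall fun y => ?_)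
  show bR (-y) * bR (-ξ - -y) = bR y * bR (ξ - y)
  rw [bR_neg, show -ξ - -y = -(ξ - y) by ring, bR_neg]

theorem kh_nonneg (ξ : ℝ) : 0 ≤ kh ξ :=
  integral_nonneg fun y => mul_nonneg (bR_nonneg y) (bR_nonneg _)

theorem kh_zero (ξ : ℝ) (h : 1 ≤ |ξ|) : kh ξ = 0 := by
  unfold kh
  have : ∀ y : ℝ, bR y * bR (ξ - y) = 0 := by
    intro y
    by_contra hc
    have h1 := bR_supp (left_ne_zero_of_mul hc)
    have h2 := bR_supp (right_ne_zero_of_mul hc)
    have h3 : |ξ| ≤ |y| + |ξ - y| := by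
      calc |ξ| = |y + (ξ - y)| := by ring_nf
        _ ≤ _ := abs_add_le _ _
    linarith
  simp [this]

theorem kh_conv (ξ : ℝ) : ((kh ξ : ℝ) : ℂ) =
    SchwartzMap.convolution (ContinuousLinearMap.mul ℂ ℂ) bS bS ξ := by
  rw [SchwartzMap.convolution_apply]
  unfold MeasureTheory.convolution kh
  rw [← integral_complex_ofReal]
  refine integral_congr_ae (Filter.Eventually.of_forall fun y => ?_)
  simp [bS_apply, bC]

theorem kh_int (ξ : ℝ) : Integrable (fun y : ℝ => bR y * bR (ξ - y)) := by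
  have h1 : Continuous (fun y : ℝ => bR y * bR (ξ - y)) :=
    bR.continuous.mul (bR.continuous.comp (by fun_prop))
  exact h1.integrable_of_hasCompactSupport bR.hasCompactSupport.mul_right

theorem kh_lower (ξ : ℝ) (h : |ξ| ≤ 1 / 4) : 1 / 4 ≤ kh ξ := by
  have key : ∀ ξ : ℝ, 0 ≤ ξ → ξ ≤ 1 / 4 → 1 / 4 ≤ kh ξ := by
    intro ξ h0 h1
    unfold kh
    have h2 : ∫ y in Set.Icc (0 : ℝ) (1 / 4), (1 : ℝ) ≤ ∫ y in Set.Icc (0 : ℝ) (1 / 4),
        bR y * bR (ξ - y) := by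
      refine setIntegral_mono_on (by simp) (kh_int ξ).integrableOn measurableSet_Icc ?_
      intro y hy
      rw [bR_one (by rw [abs_of_nonneg hy.1]; exact hy.2), bR_one, one_mul]
      rw [abs_le]
      constructor <;> linarith [hy.1, hy.2]
    have h3 : ∫ y in Set.Icc (0 : ℝ) (1 / 4), bR y * bR (ξ - y) ≤ ∫ y, bR y * bR (ξ - y) :=
      setIntegral_le_integral (kh_int ξ) (Filter.Eventually.of_forall fun y =>
        mul_nonneg (bR_nonneg y) (bR_nonneg _))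
    have h4 : ∫ y in Set.Icc (0 : ℝ) (1 / 4), (1 : ℝ) = 1 / 4 := by simp
    linarith
  rcases le_total 0 ξ with h0 | h0
  · exact key ξ h0 ((le_abs_self ξ).trans h)
  · rw [← kh_neg]
    exact key (-ξ) (by linarith) ((neg_le_abs ξ).trans h)

/-- the Fourier transform of the bump -/
noncomputable def fb (x : ℝ) : ℂ := 𝓕 bS x

theorem fb_eq (x : ℝ) : fb x = ∫ y : ℝ, ee (-(y * x)) * ((bR y : ℝ) : ℂ) := by
  unfold fb
  rw [SchwartzMap.fourier_coe, Real.fourier_real_eq_integral_exp_smul]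
  refine integral_congr_ae (Filter.Eventually.of_forall fun y => ?_)
  show Complex.exp _ • bS y = _
  rw [smul_eq_mul, bS_apply]
  unfold ee bC
  congr 2
  push_cast
  ring

theorem conj_ee (a : ℝ) : conj (ee a) = ee (-a) := by
  unfold ee
  rw [← Complex.exp_conj]
  congr 1
  rw [map_mul, Complex.conj_ofReal, Complex.conj_I]
  push_cast
  ring

theorem conj_fb (x : ℝ) : conj (fb x) = fb x := by
  rw [fb_eq, ← integral_conj]
  rw [← integral_neg_eq_self]
  refine integral_congr_ae (Filter.Eventually.of_forall fun y => ?_)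
  show conj (ee (-(-y * x)) * ((bR (-y) : ℝ) : ℂ)) = ee (-(y * x)) * ((bR y : ℝ) : ℂ)
  rw [map_mul, conj_ee, Complex.conj_ofReal, bR_neg]
  congr 2
  ring

/-- the weight -/
noncomputable def kp (x : ℝ) : ℝ := ‖fb x‖ ^ 2

theorem kp_eq (x : ℝ) : ((kp x : ℝ) : ℂ) = fb x * fb x := by
  unfold kp
  push_cast
  rw [← Complex.conj_mul', conj_fb]

theorem kp_fourier (ξ : ℝ) : ∫ x : ℝ, ee (-(x * ξ)) * ((kp x : ℝ) : ℂ) = ((kh ξ : ℝ) : ℂ) := by
  set K := SchwartzMap.convolution (ContinuousLinearMap.mul ℂ ℂ) bS bS with hK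
  have h1 : ∀ x, ((kp x : ℝ) : ℂ) = 𝓕 K x := by
    intro x
    rw [kp_eq, hK, SchwartzMap.fourier_convolution]
    rfl
  have h2 : ∫ x : ℝ, ee (-(x * ξ)) * ((kp x : ℝ) : ℂ) = 𝓕 (𝓕 K) ξ := by
    rw [SchwartzMap.fourier_coe, Real.fourier_real_eq_integral_exp_smul]
    refine integral_congr_ae (Filter.Eventually.of_forall fun x => ?_)
    show _ = Complex.exp _ • (𝓕 K) x
    rw [smul_eq_mul, ← h1]
    unfold ee
    show Complex.exp _ * _ = Complex.exp _ * _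
    congr 2
    push_cast
    ring
  rw [h2]
  have h3 : 𝓕 (𝓕 K) ξ = 𝓕⁻ (𝓕 K) (-ξ) := by
    rw [SchwartzMap.fourierInv_coe, SchwartzMap.fourier_coe, Real.fourierInv_eq_fourier_neg, neg_neg]
  rw [h3, FourierTransform.fourierInv_fourier_eq, ← kh_neg, hK, kh_conv]

theorem kp_decay : ∃ C : ℝ, ∀ x, kp x ≤ C * psi3 x := by
  obtain ⟨C0, hC0, h0⟩ := (𝓕 bS).decay 0 0
  obtain ⟨C3, hC3, h3⟩ := (𝓕 bS).decay 3 0
  refine ⟨8 * (C0 ^ 2 + C3 ^ 2), fun x => ?_⟩
  have e0 : ‖fb x‖ ≤ C0 := by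
    have h := h0 x
    rw [pow_zero, one_mul, norm_iteratedFDeriv_zero] at h
    exact h
  have e3 : |x| ^ 3 * ‖fb x‖ ≤ C3 := by
    have h := h3 x
    rw [norm_iteratedFDeriv_zero, Real.norm_eq_abs] at h
    exact h
  have hp : 0 < (1 + x ^ 2) ^ 3 := by positivity
  unfold kp psi3
  rw [← div_eq_mul_inv, le_div_iff₀ hp]
  have h1 : (1 + x ^ 2) ^ 3 ≤ 8 * (1 + (|x| ^ 3) ^ 2) := by
    have e : (|x| ^ 3) ^ 2 = (x ^ 2) ^ 3 := by
      rw [← pow_mul, ← sq_abs x]; ring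
    rw [e]
    have hx : 0 ≤ x ^ 2 := sq_nonneg x
    rcases le_total (x ^ 2) 1 with h | h
    · calc (1 + x ^ 2) ^ 3 ≤ (1 + 1) ^ 3 := pow_le_pow_left₀ (by positivity) (by linarith) 3
        _ ≤ 8 * (1 + (x ^ 2) ^ 3) := by nlinarith [pow_nonneg hx 3]
    · calc (1 + x ^ 2) ^ 3 ≤ (x ^ 2 + x ^ 2) ^ 3 := pow_le_pow_left₀ (by positivity) (by linarith) 3
        _ ≤ 8 * (1 + (x ^ 2) ^ 3) := by nlinarith [pow_nonneg hx 3]
  have h2 : ‖fb x‖ ^ 2 ≤ C0 ^ 2 := pow_le_pow_left₀ (norm_nonneg _) e0 2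
  have h4 : (|x| ^ 3 * ‖fb x‖) ^ 2 ≤ C3 ^ 2 := pow_le_pow_left₀ (by positivity) e3 2
  calc ‖fb x‖ ^ 2 * (1 + x ^ 2) ^ 3 ≤ ‖fb x‖ ^ 2 * (8 * (1 + (|x| ^ 3) ^ 2)) :=
        mul_le_mul_of_nonneg_left h1 (by positivity)
    _ = 8 * (‖fb x‖ ^ 2 + (|x| ^ 3 * ‖fb x‖) ^ 2) := by ring
    _ ≤ 8 * (C0 ^ 2 + C3 ^ 2) := by linarith

theorem fb_zero : 0 < ‖fb 0‖ := by
  have h1 : fb 0 = (((∫ y : ℝ, bR y) : ℝ) : ℂ) := by
    rw [fb_eq, ← integral_complex_ofReal]
    refine integral_congr_ae (Filter.Eventually.of_forall fun y => ?_)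
    simp [ee]
  rw [h1, Complex.norm_real, Real.norm_eq_abs]
  exact abs_pos.2 bR.integral_pos.ne'

/-- PIECE (K0) -/
theorem s_kap : S_kap := by
  refine ⟨kp, kh, ?_, ?_, fun x => by unfold kp; positivity, kp_decay, ?_, kh_zero, kh_nonneg,
    ⟨1 / 4, by norm_num, kh_lower⟩, kp_fourier⟩
  · unfold kp fb
    exact ((𝓕 bS).continuous.norm).pow 2
  · have h1 : kh = fun ξ => (SchwartzMap.convolution (ContinuousLinearMap.mul ℂ ℂ) bS bS ξ).re := by
      funext ξ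
      rw [← kh_conv, Complex.ofReal_re]
    rw [h1]
    exact Complex.continuous_re.comp (SchwartzMap.continuous _)
  · have hc : Continuous kp := by
      unfold kp fb
      exact ((𝓕 bS).continuous.norm).pow 2
    have h0 : 0 < kp 0 := by
      unfold kp
      exact pow_pos fb_zero 2
    have h1 : ∀ᶠ x in nhds (0 : ℝ), kp 0 / 2 < kp x :=
      hc.continuousAt.eventually (lt_mem_nhds (by linarith))
    obtain ⟨ε, hε, h2⟩ := Metric.eventually_nhds_iff.1 h1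
    refine ⟨min (ε / 2) (kp 0 / 2), by positivity, fun x hx => ?_⟩
    have h3 : |x| < ε := by
      have := hx.trans (min_le_left _ _)
      linarith
    have h4 := h2 (y := x) (by rw [dist_zero_right, Real.norm_eq_abs]; exact h3)
    exact (min_le_right _ _).trans h4.le

end Pool.Agent.T9h71.LG
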