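import Pool.Agent.T9h71.LG.It
import Pool.Agent.T9h71.LG.Cw
import Pool.Agent.T9h44.LG.Spec5

/-!
# (ITI), (ITJ): iteration over some of the variables (pieces S_itI, S_itJ)
-/

set_option autoImplicit false

namespace Pool.Agent.T9h71.LG

open MeasureTheory Real Pool.Agent.T9h44.LG Pool.Agent.T9h44.LS4
open Pool.Agent.T9h44.LS5 (mix)
open scoped ENNReal ComplexConjugate

variable {m n : ℕ}

/-- the fourth power of the norm as an integral over slices -/
theorem slice_int (i : Fin (m + 1)) {G : ℝ × (Fin (m + 1) → ℝ) → ℂ} (hG : NiceN G) (t : ℝ) :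
    ∫⁻ p : ℝ × (Fin (m + 1) → ℝ), ‖ExtN (Ui i t G) p‖ₑ ^ 4 =
      ∫⁻ x' : Fin m → ℝ, ∫⁻ z : ℝ × ℝ, ‖Ext (Uo t (Sl i G x')) z‖ₑ ^ 4 := by
  have hUm : Measurable (Function.uncurry fun t : ℝ => Ui i t G) := by
    refine Measurable.mul (ee_cont.measurable.comp ?_) (hG.1.comp measurable_snd)
    refine measurable_fst.mul (Measurable.div ?_ (measurable_fst.comp measurable_snd))
    exact ((measurable_pi_apply i).comp (measurable_snd.comp measurable_snd)).pow_const 2
  have hm1 := extN_meas hUm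
  have hm2 : Measurable fun p : ℝ × (Fin (m + 1) → ℝ) => ‖ExtN (Ui i t G) p‖ₑ ^ 4 :=
    ((hm1.comp (measurable_prodMk_left (x := t))).enorm).pow_const 4
  have k1 := (mp_eqv i).lintegral_comp hm2
  have k2 := lintegral_prod_symm' _ (hm2.comp (eqv i).measurable)
    (μ := (volume : Measure (ℝ × ℝ))) (ν := (volume : Measure (Fin m → ℝ)))
  refine k1.symm.trans (k2.trans ?_)
  refine lintegral_congr fun x' => lintegral_congr fun z => ?_
  show ‖ExtN (Ui i t G) (z.1, i.insertNth z.2 x')‖ₑ ^ 4 = _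
  rw [ext_slice i hG]

/-- (FX) in the variables `(w, x_i)` -/
theorem fix_one {K : ℝ≥0∞} (hK : K ≠ ⊤) {s₀ A t : ℝ}
    (fx : ∀ G : ℝ × ℝ → ℂ, Nice G →
      (∀ ζ, G ζ ≠ 0 → s₀ ≤ ζ.1 ∧ ζ.1 ≤ 4 * s₀ ∧ |ζ.2| ≤ A * ζ.1) →
      ∫⁻ z : ℝ × ℝ, ‖Ext (Uo t G) z‖ₑ ^ 4 ≤ K * ∫⁻ z : ℝ × ℝ, ‖Ext G z‖ₑ ^ 4)
    (i : Fin n) (G : ℝ × (Fin n → ℝ) → ℂ) (hG : NiceN G)
    (hs : ∀ ζ, G ζ ≠ 0 → s₀ ≤ ζ.1 ∧ ζ.1 ≤ 4 * s₀ ∧ ∀ i, |ζ.2 i| ≤ A * ζ.1) :
    ∫⁻ p : ℝ × (Fin n → ℝ), ‖ExtN (Ui i t G) p‖ₑ ^ 4 ≤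
      K * ∫⁻ p : ℝ × (Fin n → ℝ), ‖ExtN G p‖ₑ ^ 4 := by
  obtain _ | m := n
  · exact i.elim0
  have h0 : Ui i 0 G = G := by
    funext ζ
    simp [Ui, ee]
  have e0 : ∀ H : ℝ × ℝ → ℂ, Uo 0 H = H := by
    intro H
    funext ζ
    simp [Uo, ee]
  have step0 := slice_int i hG 0
  rw [h0] at step0
  simp only [e0] at step0
  rw [slice_int i hG t, step0, ← lintegral_const_mul' _ _ hK]
  refine lintegral_mono fun x' => fx _ (nice_sl i hG x') fun z hz => ?_
  obtain ⟨ζ, h1, h2, h3⟩ := sl_supp i G x' z hz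
  have h4 := hs ζ h1
  rw [h2] at h4
  exact ⟨h4.1, h4.2.1, h3 ▸ h4.2.2 i⟩

/-- the functional of the times -/
noncomputable def ff (G : ℝ × (Fin n → ℝ) → ℂ) (c : Fin n → ℝ) : ℝ≥0∞ :=
  ∫⁻ p : ℝ × (Fin n → ℝ), ‖ExtN (UN c G) p‖ₑ ^ 4

theorem ff_meas {G : ℝ × (Fin n → ℝ) → ℂ} (hG : NiceN G) : Measurable (ff G) := by
  have h1 : Measurable (Function.uncurry fun c : Fin n → ℝ => UN c G) := by
    refine Measurable.mul (ee_cont.measurable.comp ?_) (hG.1.comp measurable_snd)
    refine Measurable.div ?_ (measurable_fst.comp measurable_snd)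
    refine Finset.measurable_sum _ fun k _ => ?_
    exact ((measurable_pi_apply k).comp measurable_fst).mul
      (((measurable_pi_apply k).comp (measurable_snd.comp measurable_snd)).pow_const 2)
  have h2 := (extN_meas h1).enorm.pow_const 4
  exact h2.lintegral_prod_right'

theorem un_update (G : ℝ × (Fin n → ℝ) → ℂ) (x : Fin n → ℝ) (i : Fin n) (t : ℝ) :
    UN (Function.update x i t) G = Ui i t (UN (Function.update x i 0) G) := by
  classical
  funext ζ
  unfold UN Ui
  rw [← mul_assoc, ← ee_add']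
  congr 2
  rw [← mul_div_assoc, ← add_div]
  congr 1
  rw [← Finset.add_sum_erase _ _ (Finset.mem_univ i),
    ← Finset.add_sum_erase _ (fun k => Function.update x i 0 k * ζ.2 k ^ 2) (Finset.mem_univ i)]
  simp only [Function.update_self, zero_mul, zero_add]
  congr 1
  refine Finset.sum_congr rfl fun k hk => ?_
  rw [Function.update_of_ne (Finset.ne_of_mem_erase hk),
    Function.update_of_ne (Finset.ne_of_mem_erase hk)]

theorem un_nice {G : ℝ × (Fin n → ℝ) → ℂ} (hG : NiceN G) (x : Fin n → ℝ) : NiceN (UN x G) := by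
  obtain ⟨hm, ⟨B, hB⟩, r, hr⟩ := hG
  refine ⟨?_, ⟨B, fun ζ => ?_⟩, r, fun ζ hζ => hr ζ (right_ne_zero_of_mul hζ)⟩
  · refine Measurable.mul (ee_cont.measurable.comp ?_) hm
    refine Measurable.div ?_ measurable_fst
    refine Finset.measurable_sum _ fun k _ => ?_
    exact measurable_const.mul (((measurable_pi_apply k).comp measurable_snd).pow_const 2)
  · unfold UN
    rw [norm_mul, norm_ee', one_mul]
    exact hB ζ

/-- (GEN) for the functional -/
theorem ff_gen {K : ℝ≥0∞} {s₀ A : ℝ}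
    (gen : ∀ G : ℝ × ℝ → ℂ, Nice G →
      (∀ ζ, G ζ ≠ 0 → s₀ ≤ ζ.1 ∧ ζ.1 ≤ 4 * s₀ ∧ |ζ.2| ≤ A * ζ.1) →
      ∫⁻ c in Set.Icc (-4 : ℝ) 4, ∫⁻ z : ℝ × ℝ, ‖Ext (Uo c G) z‖ₑ ^ 4 ≤
        K * ∫⁻ z : ℝ × ℝ, ‖Ext G z‖ₑ ^ 4)
    {G : ℝ × (Fin n → ℝ) → ℂ} (hG : NiceN G)
    (hs : ∀ ζ, G ζ ≠ 0 → s₀ ≤ ζ.1 ∧ ζ.1 ≤ 4 * s₀ ∧ ∀ i, |ζ.2 i| ≤ A * ζ.1)
    (i : Fin n) (x : Fin n → ℝ) :
    ∫⁻ t in Set.Icc (-4 : ℝ) 4, ff G (Function.update x i t) ≤
      K * ff G (Function.update x i 0) := by
  unfold ff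
  have e2 : (fun t : ℝ => ∫⁻ p : ℝ × (Fin n → ℝ), ‖ExtN (UN (Function.update x i t) G) p‖ₑ ^ 4) =
      fun t : ℝ => ∫⁻ p : ℝ × (Fin n → ℝ),
        ‖ExtN (Ui i t (UN (Function.update x i 0) G)) p‖ₑ ^ 4 := by
    funext t
    rw [un_update G x i t]
  rw [e2]
  exact gen_one gen i _ (un_nice hG _) fun ζ hζ => hs ζ (right_ne_zero_of_mul hζ)

/-- (FX) for the functional -/
theorem ff_fix {K : ℝ≥0∞} (hK : K ≠ ⊤) {s₀ A t : ℝ}
    (fx : ∀ G : ℝ × ℝ → ℂ, Nice G →
      (∀ ζ, G ζ ≠ 0 → s₀ ≤ ζ.1 ∧ ζ.1 ≤ 4 * s₀ ∧ |ζ.2| ≤ A * ζ.1) →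
      ∫⁻ z : ℝ × ℝ, ‖Ext (Uo t G) z‖ₑ ^ 4 ≤ K * ∫⁻ z : ℝ × ℝ, ‖Ext G z‖ₑ ^ 4)
    {G : ℝ × (Fin n → ℝ) → ℂ} (hG : NiceN G)
    (hs : ∀ ζ, G ζ ≠ 0 → s₀ ≤ ζ.1 ∧ ζ.1 ≤ 4 * s₀ ∧ ∀ i, |ζ.2 i| ≤ A * ζ.1)
    (i : Fin n) (x : Fin n → ℝ) :
    ff G (Function.update x i t) ≤ K * ff G (Function.update x i 0) := by
  unfold ff
  rw [un_update G x i t]
  exact fix_one hK fx i _ (un_nice hG _) fun ζ hζ => hs ζ (right_ne_zero_of_mul hζ)

/-- several fixed times -/
theorem fix_iter (K : ℝ≥0∞) (f : (Fin n → ℝ) → ℝ≥0∞)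
    (h : ∀ (i : Fin n) (t : ℝ), t ∈ Set.Icc (-4 : ℝ) 4 → ∀ x, f (Function.update x i t) ≤
      K * f (Function.update x i 0)) (s : Finset (Fin n)) :
    ∀ x : Fin n → ℝ, (∀ i ∈ s, x i ∈ Set.Icc (-4 : ℝ) 4) →
      f x ≤ K ^ s.card * f (fun k => if k ∈ s then 0 else x k) := by
  classical
  induction s using Finset.induction with
  | empty =>
    intro x _
    simp
  | insert i s hi ih =>
    intro x hx
    rw [Finset.card_insert_of_notMem hi]
    refine (ih x fun k hk => hx k (Finset.mem_insert_of_mem hk)).trans ?_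
    rw [pow_succ, mul_assoc]
    refine mul_le_mul_right ?_ _
    set y : Fin n → ℝ := fun k => if k ∈ s then 0 else x k with hy
    have e1 : Function.update y i (x i) = y := by
      funext k
      by_cases hk : k = i
      · subst hk
        simp [hy, hi]
      · simp [hk]
    have e2 : Function.update y i 0 = fun k => if k ∈ insert i s then 0 else x k := by
      funext k
      by_cases hk : k = i
      · subst hk
        simp
      · simp [hk, hy]
    have h1 := h i (x i) (hx i (Finset.mem_insert_self i s)) y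
    rwa [e1, e2] at h1

/-- the mean over the variables of `I` -/
theorem mix_iter (K : ℝ≥0∞) (hK : K ≠ ⊤) (h8 : 8 ≤ K) (f : (Fin n → ℝ) → ℝ≥0∞)
    (hf : Measurable f)
    (h : ∀ (i : Fin n) (x : Fin n → ℝ), ∫⁻ t in Set.Icc (-4 : ℝ) 4, f (Function.update x i t) ≤
      K * f (Function.update x i 0)) (I : Finset (Fin n)) (y : Fin n → ℝ) :
    ∫⁻ c in cubeC n, f (mix I y c) ≤ K ^ n * f (mix I y 0) := by
  classical
  have hmix : Measurable fun c : Fin n → ℝ => mix I y c := by
    refine measurable_pi_iff.2 fun i => ?_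
    unfold Pool.Agent.T9h44.LS5.mix
    by_cases hi : i ∈ I
    · simp only [hi, if_true]
      exact measurable_pi_apply i
    · simp only [hi, if_false]
      exact measurable_const
  rw [lint_cube (fun c => f (mix I y c)) 0]
  have h1 := marg_iter ((volume : Measure ℝ).restrict (Set.Icc (-4 : ℝ) 4)) K hK
    (fun c => f (mix I y c)) (hf.comp hmix) Finset.univ (fun i _ x => ?_) 0
  · rw [Finset.card_univ, Fintype.card_fin] at h1
    refine h1.trans (le_of_eq ?_)
    congr 3
    funext k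
    simp
  · by_cases hi : i ∈ I
    · have e : ∀ t : ℝ, mix I y (Function.update x i t) = Function.update (mix I y x) i t := by
        intro t
        funext k
        by_cases hk : k = i
        · subst hk
          simp [Pool.Agent.T9h44.LS5.mix, hi]
        · simp [Pool.Agent.T9h44.LS5.mix, hk]
      simp only [e]
      exact h i _
    · have e : ∀ t : ℝ, mix I y (Function.update x i t) = mix I y x := by
        intro t
        funext k
        by_cases hk : k = i
        · subst hk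
          simp [Pool.Agent.T9h44.LS5.mix, hi]
        · simp [Pool.Agent.T9h44.LS5.mix, hk]
      simp only [e]
      rw [lintegral_const, vol_mu, mul_comm]
      exact mul_le_mul_left h8 _

/-- PIECE (ITI) -/
theorem s_itI (gen : S_gen) (fx : S_fx) (n : ℕ) : S_itI n := by
  classical
  intro ε hε
  obtain ⟨C, N, hC, hN, h⟩ := gen (ε / (n + 1)) (by positivity)
  obtain ⟨C', N', hC', hN', h'⟩ := fx
  refine ⟨(C' + 1) ^ n * (C + 8) ^ n, N' * n + N * n + 1, by positivity, by positivity,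
    fun I j hj c₀ hc₀ s₀ A hs₀ hA G hG hs => ?_⟩
  set K : ℝ≥0∞ := ENNReal.ofReal ((C + 8) * (1 + s₀) ^ (ε / (n + 1)) * A ^ N) with hK
  set K' : ℝ≥0∞ := ENNReal.ofReal ((C' + 1) * (1 + s₀) * A ^ N') with hK'
  have hKt : K ≠ ⊤ := ENNReal.ofReal_ne_top
  have hKt' : K' ≠ ⊤ := ENNReal.ofReal_ne_top
  have b1 : 1 ≤ (1 + s₀) ^ (ε / (n + 1)) := Real.one_le_rpow (by linarith) (by positivity)
  have b2 : 1 ≤ A ^ N := Real.one_le_rpow hA hN.le
  have b3 : 1 ≤ A ^ N' := Real.one_le_rpow hA hN'.le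
  have h8 : 8 ≤ K := by
    rw [hK, show (8 : ℝ≥0∞) = ENNReal.ofReal 8 by norm_num]
    refine ENNReal.ofReal_le_ofReal ?_
    calc (8 : ℝ) ≤ (C + 8) * 1 * 1 := by linarith
      _ ≤ _ := by gcongr
  have hgen : ∀ (i : Fin n) (x : Fin n → ℝ), ∫⁻ t in Set.Icc (-4 : ℝ) 4,
      ff G (Function.update x i t) ≤ K * ff G (Function.update x i 0) := by
    intro i x
    refine ff_gen (fun G' hG' hs' => (h s₀ A hs₀ hA G' hG' hs').trans ?_) hG hs i x
    refine mul_le_mul_left (ENNReal.ofReal_le_ofReal ?_) _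
    have : 0 ≤ (1 + s₀) ^ (ε / (n + 1)) * A ^ N := by positivity
    nlinarith
  have hfix : ∀ (i : Fin n) (t : ℝ), t ∈ Set.Icc (-4 : ℝ) 4 → ∀ x,
      ff G (Function.update x i t) ≤ K' * ff G (Function.update x i 0) := by
    intro i t ht x
    refine ff_fix hKt' (fun G' hG' hs' => (h' s₀ A t hs₀ hA ht G' hG' hs').trans ?_) hG hs i x
    refine mul_le_mul_left (ENNReal.ofReal_le_ofReal ?_) _
    have : 0 ≤ (1 + s₀) * A ^ N' := by positivity
    nlinarith
  set y : Fin n → ℝ := Function.update 0 j (c₀ j) with hy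
  set S : Finset (Fin n) := Finset.univ \ insert j I with hS
  have hScard : S.card = n - 1 - I.card := by
    rw [hS, Finset.card_sdiff_of_subset (Finset.subset_univ _), Finset.card_univ,
      Fintype.card_fin, Finset.card_insert_of_notMem hj]
    omega
  have step1 : ∀ c ∈ cubeC n, ff G (mix I c₀ c) ≤ K' ^ S.card * ff G (mix I y c) := by
    intro c _
    have h1 := fix_iter K' (ff G) hfix S (mix I c₀ c) (fun i hi => ?_)
    · refine h1.trans (le_of_eq ?_)
      congr 2
      funext k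
      unfold Pool.Agent.T9h44.LS5.mix
      by_cases hk : k ∈ I
      · have hkS : k ∉ S := by simp [hS, hk]
        simp [hkS, hk]
      · by_cases hkj : k = j
        · subst hkj
          have hkS : k ∉ S := by simp [hS]
          simp [hkS, hk, hy]
        · have hkS : k ∈ S := by simp [hS, hk, hkj]
          simp [hkS, hk, hy, hkj]
    · have hiI : i ∉ I := by
        simp only [hS, Finset.mem_sdiff, Finset.mem_insert, not_or] at hi
        exact hi.2.2
      unfold Pool.Agent.T9h44.LS5.mix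
      simp only [hiI, if_false]
      exact hc₀ i
  have hcube : MeasurableSet (cubeC n) := by
    rw [cube_eq]
    exact MeasurableSet.univ_pi fun _ => measurableSet_Icc
  have e0 : mix I y 0 = Function.update (0 : Fin n → ℝ) j (c₀ j) := by
    funext k
    unfold Pool.Agent.T9h44.LS5.mix
    by_cases hk : k ∈ I
    · have : k ≠ j := fun e => hj (e ▸ hk)
      simp [hk, this]
    · simp [hk, hy]
  calc ∫⁻ c in cubeC n, ff G (mix I c₀ c)
      ≤ ∫⁻ c in cubeC n, K' ^ S.card * ff G (mix I y c) := setLIntegral_mono' hcube step1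
    _ = K' ^ S.card * ∫⁻ c in cubeC n, ff G (mix I y c) :=
        lintegral_const_mul' _ _ (ENNReal.pow_ne_top hKt')
    _ ≤ K' ^ S.card * (K ^ n * ff G (mix I y 0)) :=
        mul_le_mul_right (mix_iter K hKt h8 (ff G) (ff_meas hG) hgen I y) _
    _ ≤ _ := by
        rw [e0, ← mul_assoc]
        refine mul_le_mul_left ?_ _
        rw [hK, hK', ← ENNReal.ofReal_pow (by positivity), ← ENNReal.ofReal_pow (by positivity),
          ← ENNReal.ofReal_mul (by positivity)]
        refine ENNReal.ofReal_le_ofReal ?_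
        have hIn : I.card + 1 ≤ n := by
          have h1 : (insert j I).card ≤ Fintype.card (Fin n) := Finset.card_le_univ _
          rwa [Finset.card_insert_of_notMem hj, Fintype.card_fin] at h1
        have hcast : ((S.card : ℕ) : ℝ) = (n : ℝ) - 1 - I.card := by
          rw [hScard, Nat.sub_sub, Nat.cast_sub (by omega)]
          push_cast
          ring
        have c1 : (C' + 1) ^ S.card ≤ (C' + 1) ^ n :=
          pow_le_pow_right₀ (by linarith) (by omega)
        have c2 : (A ^ N') ^ S.card ≤ A ^ (N' * n) := by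
          rw [← Real.rpow_natCast, ← Real.rpow_mul (by positivity)]
          refine Real.rpow_le_rpow_of_exponent_le hA (mul_le_mul_of_nonneg_left ?_ hN'.le)
          exact_mod_cast (by omega : S.card ≤ n)
        have c3 : (A ^ N) ^ n = A ^ (N * n) := by
          rw [← Real.rpow_natCast, ← Real.rpow_mul (by positivity)]
        have c4 : ((1 + s₀) ^ (ε / (n + 1))) ^ n ≤ (1 + s₀) ^ ε := by
          rw [← Real.rpow_natCast, ← Real.rpow_mul (by positivity)]
          refine Real.rpow_le_rpow_of_exponent_le (by linarith) ?_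
          rw [div_mul_eq_mul_div, div_le_iff₀ (by positivity)]
          nlinarith
        have c5 : (1 + s₀) ^ (ε + ((n : ℝ) - 1 - I.card)) = (1 + s₀) ^ ε * (1 + s₀) ^ S.card := by
          rw [Real.rpow_add (by positivity), ← hcast, Real.rpow_natCast]
        have c6 : A ^ (N' * n) * A ^ (N * n) ≤ A ^ (N' * n + N * n + 1) := by
          rw [← Real.rpow_add (by positivity)]
          exact Real.rpow_le_rpow_of_exponent_le hA (by linarith)
        rw [mul_pow, mul_pow, mul_pow, mul_pow, c3, c5]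
        calc (C' + 1) ^ S.card * (1 + s₀) ^ S.card * (A ^ N') ^ S.card *
              ((C + 8) ^ n * ((1 + s₀) ^ (ε / (n + 1))) ^ n * A ^ (N * n))
            ≤ (C' + 1) ^ n * (1 + s₀) ^ S.card * A ^ (N' * n) *
              ((C + 8) ^ n * (1 + s₀) ^ ε * A ^ (N * n)) := by gcongr
          _ = (C' + 1) ^ n * (C + 8) ^ n * ((1 + s₀) ^ ε * (1 + s₀) ^ S.card) *
              (A ^ (N' * n) * A ^ (N * n)) := by ring
          _ ≤ _ := by gcongr

theorem scale_le {φ : ℝ → ℝ≥0∞} (hφ : Measurable φ) {a : ℝ}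
    (ha : a ∈ Set.Icc (1 / 8 : ℝ) (1 / 4)) :
    ∫⁻ μ in Set.Icc (1 : ℝ) 2, φ (μ * a) ≤ 8 * ∫⁻ t in Set.Icc (-4 : ℝ) 4, φ t := by
  have ha0 : 0 < a := by linarith [ha.1]
  set f : ℝ → ℝ≥0∞ := (Set.Icc (-4 : ℝ) 4).indicator φ with hf
  have hfm : Measurable f := hφ.indicator measurableSet_Icc
  have h1 := lint_scale f hfm ha0
  have h2 : ∫⁻ μ in Set.Icc (1 : ℝ) 2, φ (μ * a) ≤ ∫⁻ x : ℝ, f (a * x) := by
    refine le_trans (setLIntegral_mono' measurableSet_Icc fun μ hμ => ?_)
      (setLIntegral_le_lintegral (Set.Icc (1 : ℝ) 2) _)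
    have h3 : a * μ ∈ Set.Icc (-4 : ℝ) 4 := by
      constructor
      · have := mul_nonneg ha0.le (by linarith [hμ.1] : 0 ≤ μ)
        linarith
      · calc a * μ ≤ 1 / 4 * 2 := mul_le_mul ha.2 hμ.2 (by linarith [hμ.1]) (by norm_num)
          _ ≤ 4 := by norm_num
    rw [hf, Set.indicator_of_mem h3, mul_comm]
  have h4 : ∫⁻ t in Set.Icc (-4 : ℝ) 4, φ t = ∫⁻ x : ℝ, f x :=
    (lintegral_indicator measurableSet_Icc φ).symm
  rw [h4, ← h1, ← mul_assoc]
  refine h2.trans ?_
  refine le_mul_of_one_le_left' ?_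
  rw [show (8 : ℝ≥0∞) = ENNReal.ofReal 8 by norm_num, ← ENNReal.ofReal_mul (by norm_num),
    show (1 : ℝ≥0∞) = ENNReal.ofReal 1 by norm_num]
  exact ENNReal.ofReal_le_ofReal (by linarith [ha.1])

/-- PIECE (ITJ) -/
theorem s_itJ (gen : S_gen) (fx : S_fx) (n : ℕ) : S_itJ n := by
  classical
  intro ε hε
  obtain ⟨C, N, hC, hN, h⟩ := gen (ε / (n + 1)) (by positivity)
  obtain ⟨C', N', hC', hN', h'⟩ := fx
  refine ⟨8 * ((C' + 1) ^ n * (C + 8) ^ (n + 1)), N' * n + N * (n + 1) + 1, by positivity,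
    by positivity, fun I j i₁ hj hi₁ c₀ hc₀ b hb s₀ A hs₀ hA G hG hs => ?_⟩
  set K : ℝ≥0∞ := ENNReal.ofReal ((C + 8) * (1 + s₀) ^ (ε / (n + 1)) * A ^ N) with hK
  set K' : ℝ≥0∞ := ENNReal.ofReal ((C' + 1) * (1 + s₀) * A ^ N') with hK'
  have hKt : K ≠ ⊤ := ENNReal.ofReal_ne_top
  have hKt' : K' ≠ ⊤ := ENNReal.ofReal_ne_top
  have b1 : 1 ≤ (1 + s₀) ^ (ε / (n + 1)) := Real.one_le_rpow (by linarith) (by positivity)
  have b2 : 1 ≤ A ^ N := Real.one_le_rpow hA hN.le
  have b3 : 1 ≤ A ^ N' := Real.one_le_rpow hA hN'.le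
  have h8 : 8 ≤ K := by
    rw [hK, show (8 : ℝ≥0∞) = ENNReal.ofReal 8 by norm_num]
    refine ENNReal.ofReal_le_ofReal ?_
    calc (8 : ℝ) ≤ (C + 8) * 1 * 1 := by linarith
      _ ≤ _ := by gcongr
  have hgen : ∀ (i : Fin n) (x : Fin n → ℝ), ∫⁻ t in Set.Icc (-4 : ℝ) 4,
      ff G (Function.update x i t) ≤ K * ff G (Function.update x i 0) := by
    intro i x
    refine ff_gen (fun G' hG' hs' => (h s₀ A hs₀ hA G' hG' hs').trans ?_) hG hs i x
    refine mul_le_mul_left (ENNReal.ofReal_le_ofReal ?_) _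
    have : 0 ≤ (1 + s₀) ^ (ε / (n + 1)) * A ^ N := by positivity
    nlinarith
  have hfix : ∀ (i : Fin n) (t : ℝ), t ∈ Set.Icc (-4 : ℝ) 4 → ∀ x,
      ff G (Function.update x i t) ≤ K' * ff G (Function.update x i 0) := by
    intro i t ht x
    refine ff_fix hKt' (fun G' hG' hs' => (h' s₀ A t hs₀ hA ht G' hG' hs').trans ?_) hG hs i x
    refine mul_le_mul_left (ENNReal.ofReal_le_ofReal ?_) _
    have : 0 ≤ (1 + s₀) * A ^ N' := by positivity
    nlinarith
  have hij : i₁ ≠ j := fun e => hi₁ (e ▸ hj)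
  obtain ⟨y, hy⟩ : ∃ y : ℝ → Fin n → ℝ, ∀ t,
      y t = Function.update (Function.update (0 : Fin n → ℝ) i₁ t) j b := ⟨_, fun _ => rfl⟩
  have yj : ∀ t, y t j = b := by
    intro t
    rw [hy, Function.update_self]
  have yi : ∀ t, y t i₁ = t := by
    intro t
    rw [hy, Function.update_of_ne hij, Function.update_self]
  have yk : ∀ t k, k ≠ j → k ≠ i₁ → y t k = 0 := by
    intro t k h1 h2
    rw [hy, Function.update_of_ne h1, Function.update_of_ne h2, Pi.zero_apply]
  set S : Finset (Fin n) := Finset.univ \ insert i₁ I with hS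
  have hScard : S.card = n - 1 - I.card := by
    rw [hS, Finset.card_sdiff_of_subset (Finset.subset_univ _), Finset.card_univ,
      Fintype.card_fin, Finset.card_insert_of_notMem hi₁]
    omega
  have step1 : ∀ μ ∈ Set.Icc (1 : ℝ) 2, ∀ c : Fin n → ℝ,
      ff G (Function.update (mix I (μ • c₀) c) j b) ≤
        K' ^ S.card * ff G (mix (I.erase j) (y (μ * c₀ i₁)) c) := by
    intro μ hμ c
    have h1 := fix_iter K' (ff G) hfix S (Function.update (mix I (μ • c₀) c) j b)
      (fun i hi => ?_)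
    · refine h1.trans (le_of_eq ?_)
      congr 2
      funext k
      by_cases hkj : k = j
      · subst hkj
        have hkS : k ∉ S := by simp [hS, hj]
        simp only [hkS, if_false, Function.update_self]
        unfold Pool.Agent.T9h44.LS5.mix
        simp [yj]
      · rw [Function.update_of_ne hkj]
        unfold Pool.Agent.T9h44.LS5.mix
        by_cases hk : k ∈ I
        · have hkS : k ∉ S := by simp [hS, hk]
          simp [hkS, hk, hkj]
        · by_cases hki : k = i₁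
          · subst hki
            have hkS : k ∉ S := by simp [hS]
            simp [hkS, hk, yi]
          · have hkS : k ∈ S := by simp [hS, hk, hki]
            simp [hkS, hk, yk _ k hkj hki]
    · simp only [hS, Finset.mem_sdiff, Finset.mem_insert, not_or] at hi
      have hiI : i ∉ I := hi.2.2
      have hij' : i ≠ j := fun e => hiI (e ▸ hj)
      rw [Function.update_of_ne hij']
      unfold Pool.Agent.T9h44.LS5.mix
      simp only [hiI, if_false, Pi.smul_apply, smul_eq_mul]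
      have q1 := (hc₀ i).1
      have q2 := (hc₀ i).2
      constructor
      · have := mul_nonneg (by linarith [hμ.1] : 0 ≤ μ) (by linarith : 0 ≤ c₀ i)
        linarith
      · calc μ * c₀ i ≤ 2 * (1 / 4) := mul_le_mul hμ.2 q2 (by linarith) (by norm_num)
          _ ≤ 4 := by norm_num
  have hcube : MeasurableSet (cubeC n) := by
    rw [cube_eq]
    exact MeasurableSet.univ_pi fun _ => measurableSet_Icc
  have e0 : ∀ t, mix (I.erase j) (y t) 0 = y t := by
    intro t
    funext k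
    unfold Pool.Agent.T9h44.LS5.mix
    by_cases hk : k ∈ I.erase j
    · have h1 : k ≠ j := Finset.ne_of_mem_erase hk
      have h2 : k ≠ i₁ := fun e => hi₁ (e ▸ Finset.mem_of_mem_erase hk)
      simp only [hk, if_true, Pi.zero_apply]
      exact (yk t k h1 h2).symm
    · simp only [hk, if_false]
  have e1 : ∀ t, y t = Function.update (Function.update (0 : Fin n → ℝ) j b) i₁ t := by
    intro t
    rw [hy, Function.update_comm hij]
  have hyφ : Measurable fun t => ff G (y t) := by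
    refine (ff_meas hG).comp ?_
    have : y = fun t => Function.update (Function.update (0 : Fin n → ℝ) j b) i₁ t :=
      funext e1
    rw [this]
    exact measurable_update _
  calc ∫⁻ μ in Set.Icc (1 : ℝ) 2, ∫⁻ c in cubeC n,
        ff G (Function.update (mix I (μ • c₀) c) j b)
      ≤ ∫⁻ μ in Set.Icc (1 : ℝ) 2, K' ^ S.card * K ^ n * ff G (y (μ * c₀ i₁)) := by
        refine setLIntegral_mono' measurableSet_Icc fun μ hμ => ?_
        calc ∫⁻ c in cubeC n, ff G (Function.update (mix I (μ • c₀) c) j b)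
            ≤ ∫⁻ c in cubeC n, K' ^ S.card * ff G (mix (I.erase j) (y (μ * c₀ i₁)) c) :=
              setLIntegral_mono' hcube fun c _ => step1 μ hμ c
          _ = K' ^ S.card * ∫⁻ c in cubeC n, ff G (mix (I.erase j) (y (μ * c₀ i₁)) c) :=
              lintegral_const_mul' _ _ (ENNReal.pow_ne_top hKt')
          _ ≤ K' ^ S.card * (K ^ n * ff G (mix (I.erase j) (y (μ * c₀ i₁)) 0)) :=
              mul_le_mul_right (mix_iter K hKt h8 (ff G) (ff_meas hG) hgen _ _) _
          _ = _ := by rw [e0, mul_assoc]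
    _ = K' ^ S.card * K ^ n * ∫⁻ μ in Set.Icc (1 : ℝ) 2, ff G (y (μ * c₀ i₁)) :=
        lintegral_const_mul' _ _ (ENNReal.mul_ne_top (ENNReal.pow_ne_top hKt')
          (ENNReal.pow_ne_top hKt))
    _ ≤ K' ^ S.card * K ^ n * (8 * ∫⁻ t in Set.Icc (-4 : ℝ) 4, ff G (y t)) :=
        mul_le_mul_right (scale_le hyφ (hc₀ i₁)) _
    _ ≤ K' ^ S.card * K ^ n * (8 * (K * ff G (Function.update 0 j b))) := by
        refine mul_le_mul_right (mul_le_mul_right ?_ _) _
        have h1 := hgen i₁ (Function.update (0 : Fin n → ℝ) j b)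
        have e2 : Function.update (Function.update (0 : Fin n → ℝ) j b) i₁ 0 =
            Function.update (0 : Fin n → ℝ) j b := by
          funext k
          by_cases hk : k = i₁
          · subst hk
            rw [Function.update_self, Function.update_of_ne hij, Pi.zero_apply]
          · rw [Function.update_of_ne hk]
        rw [e2] at h1
        simp only [e1]
        exact h1
    _ ≤ _ := by
        rw [show K' ^ S.card * K ^ n * (8 * (K * ff G (Function.update 0 j b))) =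
          8 * (K' ^ S.card * K ^ (n + 1)) * ff G (Function.update 0 j b) by
            rw [pow_succ]; ring]
        refine mul_le_mul_left ?_ _
        rw [hK, hK', ← ENNReal.ofReal_pow (by positivity), ← ENNReal.ofReal_pow (by positivity),
          ← ENNReal.ofReal_mul (by positivity), show (8 : ℝ≥0∞) = ENNReal.ofReal 8 by norm_num,
          ← ENNReal.ofReal_mul (by norm_num)]
        refine ENNReal.ofReal_le_ofReal ?_
        have hIn : I.card + 1 ≤ n := by
          have h1 : (insert i₁ I).card ≤ Fintype.card (Fin n) := Finset.card_le_univ _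
          rwa [Finset.card_insert_of_notMem hi₁, Fintype.card_fin] at h1
        have hcast : ((S.card : ℕ) : ℝ) = (n : ℝ) - 1 - I.card := by
          rw [hScard, Nat.sub_sub, Nat.cast_sub (by omega)]
          push_cast
          ring
        have c1 : (C' + 1) ^ S.card ≤ (C' + 1) ^ n :=
          pow_le_pow_right₀ (by linarith) (by omega)
        have c2 : (A ^ N') ^ S.card ≤ A ^ (N' * n) := by
          rw [← Real.rpow_natCast, ← Real.rpow_mul (by positivity)]
          refine Real.rpow_le_rpow_of_exponent_le hA (mul_le_mul_of_nonneg_left ?_ hN'.le)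
          exact_mod_cast (by omega : S.card ≤ n)
        have c3 : (A ^ N) ^ (n + 1) = A ^ (N * (n + 1)) := by
          rw [← Real.rpow_natCast, ← Real.rpow_mul (by positivity)]
          push_cast
          rfl
        have c4 : ((1 + s₀) ^ (ε / (n + 1))) ^ (n + 1) = (1 + s₀) ^ ε := by
          rw [← Real.rpow_natCast, ← Real.rpow_mul (by positivity)]
          congr 1
          push_cast
          field_simp
        have c5 : (1 + s₀) ^ (ε + ((n : ℝ) - 1 - I.card)) = (1 + s₀) ^ ε * (1 + s₀) ^ S.card := by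
          rw [Real.rpow_add (by positivity), ← hcast, Real.rpow_natCast]
        have c6 : A ^ (N' * n) * A ^ (N * (n + 1)) ≤ A ^ (N' * n + N * (n + 1) + 1) := by
          rw [← Real.rpow_add (by positivity)]
          exact Real.rpow_le_rpow_of_exponent_le hA (by linarith)
        rw [mul_pow, mul_pow, mul_pow, mul_pow, c3, c4, c5]
        calc 8 * ((C' + 1) ^ S.card * (1 + s₀) ^ S.card * (A ^ N') ^ S.card *
              ((C + 8) ^ (n + 1) * (1 + s₀) ^ ε * A ^ (N * (n + 1))))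
            ≤ 8 * ((C' + 1) ^ n * (1 + s₀) ^ S.card * A ^ (N' * n) *
              ((C + 8) ^ (n + 1) * (1 + s₀) ^ ε * A ^ (N * (n + 1)))) := by gcongr
          _ = 8 * ((C' + 1) ^ n * (C + 8) ^ (n + 1)) * ((1 + s₀) ^ ε * (1 + s₀) ^ S.card) *
              (A ^ (N' * n) * A ^ (N * (n + 1))) := by ring
          _ ≤ _ := by gcongr

end Pool.Agent.T9h71.LG
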