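import Pool.Agent.T9h71.LG.Kf
import Pool.Agent.T9h44.LG.Spec5

/-!
# (KFJ) the kernel on the Fourier side, metrics in `[1/2, 2]^n` (piece S_kfJ)
-/

set_option autoImplicit false

namespace Pool.Agent.T9h71.LG

open MeasureTheory Real Pool.Agent.T9h44.LG Pool.Agent.T9h44.LS4
open Filter Topology Set
open scoped ENNReal ComplexConjugate

variable {n : ℕ}

theorem norm_K0_le (M : ℕ) {g : Fin n → ℝ} (hg : ∀ i, 1 / 2 ≤ g i) :
    ‖K0 M g‖ ≤ 2 * 2 ^ ((M : ℝ) - 1 / 2) * ((1 / 2 : ℝ) ^ n) ^ (-(1 / 2) : ℝ) := by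
  have h1 : ‖Complex.exp (-(Complex.I * (π / 4 : ℝ)))‖ = 1 := by
    rw [show -(Complex.I * ((π / 4 : ℝ) : ℂ)) = ((-(π / 4) : ℝ) : ℂ) * Complex.I by
      push_cast; ring, Complex.norm_exp_ofReal_mul_I]
  have h2 : (1 / 2 : ℝ) ^ n ≤ ∏ i, g i := by
    calc (1 / 2 : ℝ) ^ n = ∏ _i : Fin n, (1 / 2 : ℝ) := by simp
      _ ≤ ∏ i, g i := Finset.prod_le_prod (fun _ _ => by norm_num) fun i _ => hg i
  have h0 : (0 : ℝ) < (1 / 2) ^ n := by positivity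
  have h3 : (∏ i, g i) ^ (-(1 / 2) : ℝ) ≤ ((1 / 2 : ℝ) ^ n) ^ (-(1 / 2) : ℝ) :=
    Real.rpow_le_rpow_of_nonpos h0 h2 (by norm_num)
  have h4 : 0 ≤ (∏ i, g i) ^ (-(1 / 2) : ℝ) := Real.rpow_nonneg (h0.le.trans h2) _
  unfold K0
  rw [norm_mul, norm_pow, h1, one_pow, mul_one, Complex.norm_real,
    Real.norm_of_nonneg (by positivity)]
  exact mul_le_mul_of_nonneg_left h3 (by positivity)

/-- (KF) for any metric -/
theorem kf_gen (hn : 1 ≤ n) (M : ℕ) {C : ℝ} {g : Fin n → ℝ} (hg0 : ∀ i, 0 < g i)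
    (hC : ‖K0 M g‖ ≤ C) (w : ℝ) {R : ℝ} (hR0 : 0 < R) (x : Fin n → ℝ) {G : (Fin n → ℝ) → ℂ}
    (hG : NiceV G) :
    ‖∫ u : Fin n → ℝ, KM M n R⁻¹ w g (x - u) * ExV G u‖ₑ ≤
        ENNReal.ofReal C * ∑' l : ℤ, ‖ExtN (UN (fun i => 1 / (4 * g i)) fun ζ =>
          ((bet (ζ.1 / 2 ^ l) * am M R ζ.1 : ℝ) : ℂ) * G ζ.2) (w, x)‖ₑ := by
  set c : Fin n → ℝ := fun i => 1 / (4 * g i) with hc
  rw [kf_left hn hR0 hg0 w x hG]
  set F : ℤ → ℝ × (Fin n → ℝ) → ℂ := fun l ζ =>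
    ((bet (ζ.1 / 2 ^ l) : ℝ) : ℂ) * Phi M R w c x G ζ with hF
  have hFm : ∀ l, Measurable (F l) := by
    intro l
    refine Measurable.mul (Complex.measurable_ofReal.comp (bet_cont.measurable.comp ?_))
      (phi_meas M R w c x hG.1)
    fun_prop
  have hsum : ∀ ζ, ∑' l, F l ζ = Phi M R w c x G ζ := by
    intro ζ
    by_cases h : ζ.1 ∈ Ioi (0 : ℝ)
    · have h1 : HasSum (fun l : ℤ => ((bet (ζ.1 / 2 ^ l) : ℝ) : ℂ)) ((1 : ℝ) : ℂ) :=
        Complex.hasSum_ofReal.2 (bet_hasSum h)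
      have h2 := h1.mul_right (Phi M R w c x G ζ)
      rw [Complex.ofReal_one, one_mul] at h2
      exact h2.tsum_eq
    · have h0 : Phi M R w c x G ζ = 0 := by
        unfold Phi
        rw [Set.indicator_of_notMem h, zero_mul]
      simp only [hF, h0, mul_zero, tsum_zero]
  have hnorm : ∀ ζ, ∑' l, ‖F l ζ‖ₑ ≤ ‖Phi M R w c x G ζ‖ₑ := by
    intro ζ
    by_cases h : ζ.1 ∈ Ioi (0 : ℝ)
    · have h1 : ∀ l : ℤ, ‖F l ζ‖ₑ = ENNReal.ofReal (bet (ζ.1 / 2 ^ l)) * ‖Phi M R w c x G ζ‖ₑ := by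
        intro l
        rw [hF]
        beta_reduce
        rw [enorm_mul, ← ofReal_norm (((bet (ζ.1 / 2 ^ l) : ℝ) : ℂ)), Complex.norm_real,
          Real.norm_of_nonneg (bet_nonneg _)]
      simp only [h1]
      rw [ENNReal.tsum_mul_right, ← ENNReal.ofReal_tsum_of_nonneg (fun l => bet_nonneg _)
        (bet_hasSum h).summable, (bet_hasSum h).tsum_eq, ENNReal.ofReal_one, one_mul]
    · have h0 : Phi M R w c x G ζ = 0 := by
        unfold Phi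
        rw [Set.indicator_of_notMem h, zero_mul]
      simp only [hF, h0, mul_zero, enorm_zero, tsum_zero, le_refl]
  have hfin : ∑' l, ∫⁻ ζ, ‖F l ζ‖ₑ ≠ ⊤ := by
    rw [← lintegral_tsum fun l => (hFm l).enorm.aemeasurable]
    exact ((lintegral_mono hnorm).trans_lt (phi_int M hR0 w c x hG).2).ne
  have key := integral_tsum (fun l => (hFm l).aestronglyMeasurable) hfin
  simp only [hsum] at key
  rw [key, enorm_mul]
  refine mul_le_mul' ?_ ?_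
  · rw [← ofReal_norm]
    exact ENNReal.ofReal_le_ofReal hC
  · refine enorm_tsum_le_tsum_enorm.trans (le_of_eq ?_)
    congr 1
    funext l
    rw [ext_piece]

/-- PIECE (KFJ) -/
theorem s_kfJ (n : ℕ) : S_kfJ n := by
  intro hn M
  refine ⟨2 * 2 ^ ((M : ℝ) - 1 / 2) * ((1 / 2 : ℝ) ^ n) ^ (-(1 / 2) : ℝ), by positivity,
    fun g hg w R x hR G hG => ?_⟩
  exact kf_gen hn M (fun i => by linarith [(hg i).1]) (norm_K0_le M fun i => (hg i).1) w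
    (by linarith) x hG

end Pool.Agent.T9h71.LG
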