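import Pool.Agent.T9h44.LG.Spec2

/-!
# (IT) and (FU): iteration over the variables (pieces S_it, S_fu)
-/

set_option autoImplicit false

namespace Pool.Agent.T9h71.LG

open MeasureTheory Real Pool.Agent.T9h44.LG Pool.Agent.T9h44.LS4
open scoped ENNReal ComplexConjugate

section marginals

variable {n : ℕ}

/-- iterated inequalities in one variable -/
theorem marg_iter (μ : Measure ℝ) [SigmaFinite μ] (K : ℝ≥0∞) (hK : K ≠ ⊤)
    (F : (Fin n → ℝ) → ℝ≥0∞) (hF : Measurable F) (s : Finset (Fin n)) :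
    (∀ i ∈ s, ∀ x, ∫⁻ t, F (Function.update x i t) ∂μ ≤ K * F (Function.update x i 0)) →
    ∀ x : Fin n → ℝ,
      (∫⋯∫⁻_s, F ∂fun _ => μ) x ≤ K ^ s.card * F (fun k => if k ∈ s then 0 else x k) := by
  induction s using Finset.induction with
  | empty =>
    intro _ x
    simp
  | insert i s hi ih =>
    intro h x
    rw [lmarginal_insert F hF hi, Finset.card_insert_of_notMem hi]
    have ih' := ih fun j hj => h j (Finset.mem_insert_of_mem hj)
    have e : ∀ t : ℝ, (fun k => if k ∈ s then 0 else Function.update x i t k) =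
        Function.update (fun k => if k ∈ s then 0 else x k) i t := by
      intro t
      funext k
      by_cases hk : k = i
      · subst hk
        simp [hi]
      · simp [Function.update_of_ne hk]
    calc ∫⁻ t, (∫⋯∫⁻_s, F ∂fun _ => μ) (Function.update x i t) ∂μ
        ≤ ∫⁻ t, K ^ s.card * F (Function.update (fun k => if k ∈ s then 0 else x k) i t) ∂μ := by
          refine lintegral_mono fun t => ?_
          have := ih' (Function.update x i t)
          rwa [e] at this
      _ = K ^ s.card * ∫⁻ t, F (Function.update (fun k => if k ∈ s then 0 else x k) i t) ∂μ :=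
          lintegral_const_mul' _ _ (ENNReal.pow_ne_top hK)
      _ ≤ K ^ s.card * (K * F (Function.update (fun k => if k ∈ s then 0 else x k) i 0)) :=
          mul_le_mul_right (h i (Finset.mem_insert_self i s) _) _
      _ = _ := by
          rw [pow_succ, mul_assoc]
          congr 3
          funext k
          by_cases hk : k = i
          · subst hk
            simp
          · simp [hk]

theorem cube_eq : cubeC n = Set.univ.pi fun _ => Set.Icc (-4 : ℝ) 4 := by
  ext c
  simp only [cubeC, Set.mem_pi, Set.mem_univ, true_implies, Set.mem_ofPred_eq]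

theorem box_eq : box n = Set.univ.pi fun _ => Set.Icc (1 : ℝ) 2 := by
  ext c
  simp only [box, Set.mem_pi, Set.mem_univ, true_implies, Set.mem_ofPred_eq]

theorem lint_cube (F : (Fin n → ℝ) → ℝ≥0∞) (x : Fin n → ℝ) : ∫⁻ c in cubeC n, F c =
    (∫⋯∫⁻_Finset.univ, F ∂fun _ => (volume : Measure ℝ).restrict (Set.Icc (-4 : ℝ) 4)) x := by
  rw [← lintegral_eq_lmarginal_univ, cube_eq, volume_pi, Measure.restrict_pi_pi]

theorem lint_box (F : (Fin n → ℝ) → ℝ≥0∞) (x : Fin n → ℝ) : ∫⁻ c in box n, F c =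
    (∫⋯∫⁻_Finset.univ, F ∂fun _ => (volume : Measure ℝ).restrict (Set.Icc (1 : ℝ) 2)) x := by
  rw [← lintegral_eq_lmarginal_univ, box_eq, volume_pi, Measure.restrict_pi_pi]

theorem vol_mu : ((volume : Measure ℝ).restrict (Set.Icc (-4 : ℝ) 4)) Set.univ = 8 := by
  rw [Measure.restrict_apply_univ, Real.volume_Icc]
  norm_num

/-- the iteration -/
theorem cube_iter (K : ℝ≥0∞) (hK : K ≠ ⊤) (f : (Fin n → ℝ) → ℝ≥0∞) (hf : Measurable f)
    (j : Fin n) (b : ℝ)
    (h : ∀ i ≠ j, ∀ x, ∫⁻ t in Set.Icc (-4 : ℝ) 4, f (Function.update x i t) ≤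
      K * f (Function.update x i 0)) :
    ∫⁻ c in cubeC n, f (Function.update c j b) ≤ 8 * K ^ (n - 1) * f (Function.update 0 j b) := by
  classical
  set F : (Fin n → ℝ) → ℝ≥0∞ := fun c => f (Function.update c j b) with hFd
  have hF : Measurable F := hf.comp measurable_update_left
  have hs : Finset.univ = insert j (Finset.univ.erase j) := by
    rw [Finset.insert_erase (Finset.mem_univ j)]
  rw [lint_cube F 0, hs, lmarginal_insert F hF (Finset.notMem_erase j _)]
  calc ∫⁻ t in Set.Icc (-4 : ℝ) 4, (∫⋯∫⁻_Finset.univ.erase j, F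
        ∂fun _ => (volume : Measure ℝ).restrict (Set.Icc (-4 : ℝ) 4)) (Function.update 0 j t)
      ≤ ∫⁻ _t in Set.Icc (-4 : ℝ) 4, K ^ (n - 1) * f (Function.update 0 j b) := by
        refine lintegral_mono fun t => ?_
        have h1 := marg_iter ((volume : Measure ℝ).restrict (Set.Icc (-4 : ℝ) 4)) K hK F hF
          (Finset.univ.erase j) (fun i hi x => ?_) (Function.update 0 j t)
        · rw [Finset.card_erase_of_mem (Finset.mem_univ j), Finset.card_univ, Fintype.card_fin] at h1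
          refine h1.trans (le_of_eq ?_)
          congr 1
          show f (Function.update _ j b) = f (Function.update 0 j b)
          congr 1
          funext k
          by_cases hk : k = j
          · subst hk
            simp
          · simp [hk]
        · have hij : i ≠ j := Finset.ne_of_mem_erase hi
          show ∫⁻ t in Set.Icc (-4 : ℝ) 4, f (Function.update (Function.update x i t) j b) ≤
            K * f (Function.update (Function.update x i 0) j b)
          simp only [Function.update_comm hij]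
          exact h i hij _
    _ = _ := by
        rw [lintegral_const, vol_mu]
        ring

/-- PIECE (FU) -/
theorem s_fu (n : ℕ) : S_fu n := by
  classical
  intro f j B hf hB
  set μ : Measure ℝ := (volume : Measure ℝ).restrict (Set.Icc (1 : ℝ) 2) with hμ
  set ν : Measure ℝ := (volume : Measure ℝ).restrict (Set.Icc (-4 : ℝ) 4) with hν
  -- one variable
  have one : ∀ h : ℝ → ℝ≥0∞, Measurable h → ∫⁻ g, h (1 / (4 * g)) ∂μ ≤ 16 * ∫⁻ c, h c ∂ν := by
    intro h hh
    have himg : (fun c : ℝ => 1 / (4 * c)) '' Set.Icc (1 / 8 : ℝ) (1 / 4) = Set.Icc (1 : ℝ) 2 := by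
      ext g
      constructor
      · rintro ⟨c, ⟨h1, h2⟩, rfl⟩
        have hc : 0 < c := by linarith
        constructor
        · show 1 ≤ 1 / (4 * c)
          rw [le_div_iff₀ (by positivity)]
          linarith
        · show 1 / (4 * c) ≤ 2
          rw [div_le_iff₀ (by positivity)]
          linarith
      · rintro ⟨h1, h2⟩
        have hg : 0 < g := by linarith
        refine ⟨1 / (4 * g), ⟨?_, ?_⟩, ?_⟩
        · rw [div_le_div_iff₀ (by norm_num) (by positivity)]
          linarith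
        · rw [div_le_div_iff₀ (by positivity) (by norm_num)]
          linarith
        · show 1 / (4 * (1 / (4 * g))) = g
          field_simp
    have hder : ∀ c ∈ Set.Icc (1 / 8 : ℝ) (1 / 4), HasDerivWithinAt (fun c : ℝ => 1 / (4 * c))
        (-(1 / (4 * c ^ 2))) (Set.Icc (1 / 8 : ℝ) (1 / 4)) c := by
      intro c hc
      have hc0 : c ≠ 0 := by
        have := hc.1
        intro h0
        rw [h0] at this
        norm_num at this
      have h1 : HasDerivAt (fun c : ℝ => 4 * c) (4 * 1) c := (hasDerivAt_id c).const_mul 4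
      have h2 := h1.inv (by positivity : 4 * c ≠ 0)
      have h3 : (fun c : ℝ => 1 / (4 * c)) = (fun c : ℝ => 4 * c)⁻¹ := by
        funext x
        simp
      rw [h3]
      have h4 : -(1 / (4 * c ^ 2)) = -(4 * 1) / (4 * c) ^ 2 := by
        rw [mul_one, mul_pow, neg_div, neg_inj, div_eq_div_iff (by positivity) (by positivity)]
        ring
      rw [h4]
      exact h2.hasDerivWithinAt
    have hinj : Set.InjOn (fun c : ℝ => 1 / (4 * c)) (Set.Icc (1 / 8 : ℝ) (1 / 4)) := by
      intro x hx y hy hxy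
      have hx0 : 0 < x := by linarith [hx.1]
      have hy0 : 0 < y := by linarith [hy.1]
      have : 1 / (4 * x) = 1 / (4 * y) := hxy
      rw [div_eq_div_iff (by positivity) (by positivity)] at this
      linarith
    have key := lintegral_image_eq_lintegral_abs_deriv_mul measurableSet_Icc hder hinj
      (fun g => h (1 / (4 * g)))
    rw [himg] at key
    rw [hμ, key]
    calc ∫⁻ c in Set.Icc (1 / 8 : ℝ) (1 / 4), ENNReal.ofReal |-(1 / (4 * c ^ 2))| *
          h (1 / (4 * (1 / (4 * c))))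
        ≤ ∫⁻ c in Set.Icc (1 / 8 : ℝ) (1 / 4), 16 * h c := by
          refine setLIntegral_mono' measurableSet_Icc fun c hc => ?_
          have hc0 : 0 < c := by linarith [hc.1]
          have e1 : 1 / (4 * (1 / (4 * c))) = c := by field_simp
          rw [e1]
          refine mul_le_mul_left ?_ _
          rw [abs_neg, abs_of_pos (by positivity)]
          have : (16 : ℝ≥0∞) = ENNReal.ofReal 16 := by norm_num
          rw [this]
          refine ENNReal.ofReal_le_ofReal ?_
          rw [div_le_iff₀ (by positivity)]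
          nlinarith [hc.1]
      _ = 16 * ∫⁻ c in Set.Icc (1 / 8 : ℝ) (1 / 4), h c := by
          rw [lintegral_const_mul _ hh]
      _ ≤ 16 * ∫⁻ c, h c ∂ν := by
          refine mul_le_mul_right ?_ _
          refine lintegral_mono' (Measure.restrict_mono ?_ le_rfl) le_rfl
          exact Set.Icc_subset_Icc (by norm_num) (by norm_num)
  -- the induction
  set φ : (Fin n → ℝ) → Fin n → ℝ := fun g i => 1 / (4 * g i) with hφ
  have hφm : Measurable φ := by
    refine measurable_pi_iff.2 fun i => ?_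
    exact measurable_const.div ((measurable_pi_apply i).const_mul 4)
  have hφu : ∀ (x : Fin n → ℝ) (i : Fin n) (t : ℝ),
      φ (Function.update x i t) = Function.update (φ x) i (1 / (4 * t)) := by
    intro x i t
    funext k
    by_cases hk : k = i
    · subst hk
      simp [hφ]
    · simp [hφ, Function.update_of_ne hk]
  have ind : ∀ s : Finset (Fin n), ∀ x : Fin n → ℝ,
      (∫⋯∫⁻_s, f ∘ φ ∂fun _ => μ) x ≤ 16 ^ s.card * (∫⋯∫⁻_s, f ∂fun _ => ν) (φ x) := by
    intro s
    induction s using Finset.induction with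
    | empty =>
      intro x
      simp
    | insert i s hi ih =>
      intro x
      rw [lmarginal_insert _ (hf.comp hφm) hi, lmarginal_insert _ hf hi,
        Finset.card_insert_of_notMem hi]
      calc ∫⁻ t, (∫⋯∫⁻_s, f ∘ φ ∂fun _ => μ) (Function.update x i t) ∂μ
          ≤ ∫⁻ t, 16 ^ s.card * (∫⋯∫⁻_s, f ∂fun _ => ν)
              (Function.update (φ x) i (1 / (4 * t))) ∂μ := by
            refine lintegral_mono fun t => ?_
            rw [← hφu]
            exact ih _
        _ = 16 ^ s.card * ∫⁻ t, (∫⋯∫⁻_s, f ∂fun _ => ν)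
              (Function.update (φ x) i (1 / (4 * t))) ∂μ :=
            lintegral_const_mul' _ _ (ENNReal.pow_ne_top (by norm_num))
        _ ≤ 16 ^ s.card * (16 * ∫⁻ c, (∫⋯∫⁻_s, f ∂fun _ => ν) (Function.update (φ x) i c) ∂ν) := by
            refine mul_le_mul_right ?_ _
            exact one (fun c => (∫⋯∫⁻_s, f ∂fun _ => ν) (Function.update (φ x) i c))
              ((hf.lmarginal _).comp (measurable_update _))
        _ = _ := by rw [pow_succ, mul_assoc]
  have hs : Finset.univ = insert j (Finset.univ.erase j) := by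
    rw [Finset.insert_erase (Finset.mem_univ j)]
  have hfφ : Measurable (f ∘ φ) := hf.comp hφm
  show ∫⁻ g in box n, (f ∘ φ) g ≤ 16 ^ n * B
  rw [lint_box (f ∘ φ) 0, hs, lmarginal_insert _ hfφ (Finset.notMem_erase j _)]
  have hcard : (Finset.univ.erase j).card = n - 1 := by
    rw [Finset.card_erase_of_mem (Finset.mem_univ j), Finset.card_univ, Fintype.card_fin]
  have hB' : ∀ b ∈ Set.Icc (1 / 8 : ℝ) (1 / 4), ∀ x : Fin n → ℝ,
      (∫⋯∫⁻_Finset.univ.erase j, f ∂fun _ => ν) (Function.update x j b) ≤ B := by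
    intro b hb x
    have h1 := hB b hb
    have hfu : Measurable fun c : Fin n → ℝ => f (Function.update c j b) :=
      hf.comp measurable_update_left
    rw [lint_cube (fun c => f (Function.update c j b)) x, hs,
      lmarginal_insert _ hfu (Finset.notMem_erase j _)] at h1
    rw [lmarginal_update_of_notMem hf (Finset.notMem_erase j _)]
    have h2 : ∀ t : ℝ, (∫⋯∫⁻_Finset.univ.erase j, (fun c => f (Function.update c j b))
        ∂fun _ => ν) (Function.update x j t) =
        (∫⋯∫⁻_Finset.univ.erase j, (f ∘ fun c => Function.update c j b) ∂fun _ => ν) x := by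
      intro t
      rw [lmarginal_update_of_notMem hfu (Finset.notMem_erase j _)]
      congr 1
      funext c
      simp
    rw [hν] at h2
    simp only [h2] at h1
    rw [lintegral_const, vol_mu] at h1
    refine le_trans ?_ h1
    rw [hν]
    exact le_mul_of_one_le_right' (by norm_num)
  calc ∫⁻ t in Set.Icc (1 : ℝ) 2, (∫⋯∫⁻_Finset.univ.erase j, f ∘ φ
        ∂fun _ => (volume : Measure ℝ).restrict (Set.Icc (1 : ℝ) 2)) (Function.update 0 j t)
      ≤ ∫⁻ _t in Set.Icc (1 : ℝ) 2, 16 ^ (n - 1) * B := by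
        refine setLIntegral_mono' measurableSet_Icc fun t ht => ?_
        refine (ind _ _).trans ?_
        rw [hcard, hφu]
        refine mul_le_mul_right (hB' _ ?_ _) _
        have ht0 : 0 < t := by linarith [ht.1]
        constructor
        · rw [div_le_div_iff₀ (by norm_num) (by positivity)]
          linarith [ht.2]
        · rw [div_le_div_iff₀ (by positivity) (by norm_num)]
          linarith [ht.1]
    _ = 16 ^ (n - 1) * B := by
        rw [lintegral_const, Measure.restrict_apply_univ, Real.volume_Icc]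
        norm_num
    _ ≤ 16 ^ n * B := mul_le_mul_left (pow_le_pow_right₀ (by norm_num) (Nat.sub_le n 1)) _

end marginals

section slices

theorem norm_ee' (a : ℝ) : ‖ee a‖ = 1 := by
  unfold ee
  rw [Complex.norm_exp_ofReal_mul_I]

theorem ee_cont : Continuous ee := by
  unfold ee
  fun_prop

theorem ee_add' (a b : ℝ) : ee (a + b) = ee a * ee b := by
  unfold ee
  rw [← Complex.exp_add]
  congr 1
  push_cast
  ring

/-- bounded with a compact support -/
theorem integrable_bdd {α : Type*} [MeasurableSpace α] {μ : Measure α} {f : α → ℂ}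
    (hf : AEStronglyMeasurable f μ) {B : ℝ} (hB : ∀ x, ‖f x‖ ≤ B) {s : Set α} (hs : μ s ≠ ⊤)
    (hsupp : ∀ x, f x ≠ 0 → x ∈ s) : Integrable f μ := by
  rw [← integrableOn_iff_integrable_of_support_subset (s := s) (fun x hx => hsupp x hx)]
  refine Measure.integrableOn_of_bounded (M := B) hs hf ?_
  exact Filter.Eventually.of_forall hB

variable {m n : ℕ}

/-- a cube has a finite measure -/
theorem vol_cube (r : ℝ) :
    (volume : Measure (Fin n → ℝ)) (Set.univ.pi fun _ => Set.Icc (-r) r) ≠ ⊤ :=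
  (isCompact_univ_pi fun _ => isCompact_Icc).measure_lt_top.ne

/-- the slice -/
noncomputable def Sl (i : Fin (m + 1)) (G : ℝ × (Fin (m + 1) → ℝ) → ℂ) (x' : Fin m → ℝ)
    (z : ℝ × ℝ) : ℂ :=
  ∫ ξ' : Fin m → ℝ, ee (∑ k, x' k * ξ' k) * G (z.1, i.insertNth z.2 ξ')

theorem meas_ins (i : Fin (m + 1)) :
    Measurable fun q : (ℝ × ℝ) × (Fin m → ℝ) => (q.1.1, (i.insertNth q.1.2 q.2 : Fin (m + 1) → ℝ)) := by
  refine Measurable.prodMk (by fun_prop) ?_
  exact (MeasurableEquiv.piFinSuccAbove (fun _ => ℝ) i).symm.measurable.comp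
    ((measurable_snd.comp measurable_fst).prodMk measurable_snd)

theorem NiceN.bound {G : ℝ × (Fin n → ℝ) → ℂ} (hG : NiceN G) :
    ∃ B : ℝ, 0 ≤ B ∧ ∀ ζ, ‖G ζ‖ ≤ B := by
  obtain ⟨-, ⟨B, hB⟩, -⟩ := hG
  exact ⟨B, (norm_nonneg _).trans (hB (0, 0)), hB⟩

/-- the slices are nice -/
theorem nice_sl (i : Fin (m + 1)) {G : ℝ × (Fin (m + 1) → ℝ) → ℂ} (hG : NiceN G)
    (x' : Fin m → ℝ) : Nice (Sl i G x') := by
  obtain ⟨B, hB0, hB⟩ := NiceN.bound hG
  obtain ⟨hm, -, r, hr⟩ := hG
  have hsup : ∀ (z : ℝ × ℝ) (ξ' : Fin m → ℝ),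
      ee (∑ k, x' k * ξ' k) * G (z.1, i.insertNth z.2 ξ') ≠ 0 →
      |z.1| ≤ r ∧ |z.2| ≤ r ∧ ξ' ∈ Set.univ.pi fun _ => Set.Icc (-r) r := by
    intro z ξ' h
    obtain ⟨h1, h2⟩ := hr _ (right_ne_zero_of_mul h)
    refine ⟨h1, ?_, fun k _ => ?_⟩
    · have := h2 i
      simpa using this
    · have := h2 (i.succAbove k)
      simp only [Fin.insertNth_apply_succAbove] at this
      exact abs_le.1 this
  refine ⟨?_, ⟨B * (volume : Measure (Fin m → ℝ)).real (Set.univ.pi fun _ => Set.Icc (-r) r),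
    fun z => ?_⟩, r, fun z hz => ?_⟩
  · have h1 : StronglyMeasurable fun q : (ℝ × ℝ) × (Fin m → ℝ) =>
        ee (∑ k, x' k * q.2 k) * G (q.1.1, i.insertNth q.1.2 q.2) := by
      refine Measurable.stronglyMeasurable (Measurable.mul ?_ (hm.comp (meas_ins i)))
      exact ee_cont.measurable.comp (by fun_prop)
    exact h1.integral_prod_right'.measurable
  · unfold Sl
    rw [← setIntegral_eq_integral_of_forall_compl_eq_zero
      (s := Set.univ.pi fun _ => Set.Icc (-r) r)]
    · refine norm_setIntegral_le_of_norm_le_const (lt_top_iff_ne_top.2 (vol_cube r)) fun ξ' _ => ?_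
      rw [norm_mul, norm_ee', one_mul]
      exact hB _
    · intro ξ' hξ
      by_contra h
      exact hξ (hsup z ξ' h).2.2
  · by_contra h
    refine hz ?_
    unfold Sl
    refine integral_eq_zero_of_ae (Filter.Eventually.of_forall fun ξ' => ?_)
    by_contra h'
    have := hsup z ξ' h'
    exact h ⟨this.1, this.2.1⟩

/-- the support of the slices -/
theorem sl_supp (i : Fin (m + 1)) (G : ℝ × (Fin (m + 1) → ℝ) → ℂ) (x' : Fin m → ℝ) (z : ℝ × ℝ)
    (hz : Sl i G x' z ≠ 0) : ∃ ζ, G ζ ≠ 0 ∧ ζ.1 = z.1 ∧ ζ.2 i = z.2 := by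
  by_contra h
  push Not at h
  refine hz ?_
  unfold Sl
  refine integral_eq_zero_of_ae (Filter.Eventually.of_forall fun ξ' => ?_)
  show ee (∑ k, x' k * ξ' k) * G (z.1, i.insertNth z.2 ξ') = 0
  by_contra h'
  exact h _ (right_ne_zero_of_mul h') rfl (by simp)

/-- the change of variables -/
def eqv (i : Fin (m + 1)) : (ℝ × ℝ) × (Fin m → ℝ) ≃ᵐ ℝ × (Fin (m + 1) → ℝ) :=
  MeasurableEquiv.prodAssoc.trans
    ((MeasurableEquiv.refl ℝ).prodCongr (MeasurableEquiv.piFinSuccAbove (fun _ => ℝ) i).symm)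

theorem eqv_apply (i : Fin (m + 1)) (q : (ℝ × ℝ) × (Fin m → ℝ)) :
    eqv i q = (q.1.1, i.insertNth q.1.2 q.2) := rfl

theorem mp_eqv (i : Fin (m + 1)) : MeasurePreserving (eqv (m := m) i) := by
  have h1 : MeasurePreserving (MeasurableEquiv.prodAssoc :
    (ℝ × ℝ) × (Fin m → ℝ) ≃ᵐ ℝ × (ℝ × (Fin m → ℝ))) volume volume := volume_preserving_prodAssoc
  have h2 : MeasurePreserving (Prod.map (id : ℝ → ℝ)
      ((MeasurableEquiv.piFinSuccAbove (fun _ => ℝ) i).symm : ℝ × (Fin m → ℝ) → Fin (m + 1) → ℝ))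
      (volume.prod volume) (volume.prod volume) :=
    (MeasurePreserving.id volume).prod ((volume_preserving_piFinSuccAbove (fun _ => ℝ) i).symm _)
  exact h2.comp h1

/-- the propagator in the variable `i` -/
noncomputable def Ui (i : Fin n) (t : ℝ) (G : ℝ × (Fin n → ℝ) → ℂ) (ζ : ℝ × (Fin n → ℝ)) : ℂ :=
  ee (t * (ζ.2 i ^ 2 / ζ.1)) * G ζ

theorem ext_slice (i : Fin (m + 1)) {G : ℝ × (Fin (m + 1) → ℝ) → ℂ} (hG : NiceN G) (t w u : ℝ)
    (x' : Fin m → ℝ) :
    ExtN (Ui i t G) (w, i.insertNth u x') = Ext (Uo t (Sl i G x')) (w, u) := by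
  obtain ⟨B, hB0, hB⟩ := NiceN.bound hG
  obtain ⟨hm, -, r, hr⟩ := hG
  have hΦ : Integrable fun ζ : ℝ × (Fin (m + 1) → ℝ) =>
      ee (w * ζ.1 + ∑ k, (i.insertNth u x' : Fin (m + 1) → ℝ) k * ζ.2 k) * Ui i t G ζ := by
    refine integrable_bdd (B := B) (s := Set.Icc (-r) r ×ˢ Set.univ.pi fun _ => Set.Icc (-r) r)
      ?_ (fun ζ => ?_) ?_ (fun ζ hζ => ?_)
    · refine (Measurable.mul (ee_cont.measurable.comp (by fun_prop)) ?_).aestronglyMeasurable
      refine Measurable.mul (ee_cont.measurable.comp ?_) hm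
      refine measurable_const.mul (Measurable.div ?_ measurable_fst)
      exact ((measurable_pi_apply i).comp measurable_snd).pow_const 2
    · rw [norm_mul, norm_ee', one_mul, Ui, norm_mul, norm_ee', one_mul]
      exact hB ζ
    · exact (isCompact_Icc.prod (isCompact_univ_pi fun _ => isCompact_Icc)).measure_lt_top.ne
    · obtain ⟨h1, h2⟩ := hr _ (right_ne_zero_of_mul (right_ne_zero_of_mul hζ))
      exact ⟨abs_le.1 h1, fun k _ => abs_le.1 (h2 k)⟩
  have hΦ' := ((mp_eqv i).integrable_comp_emb (eqv i).measurableEmbedding).2 hΦ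
  have k1 := (mp_eqv i).integral_comp (eqv i).measurableEmbedding
    (fun ζ : ℝ × (Fin (m + 1) → ℝ) =>
      ee (w * ζ.1 + ∑ k, (i.insertNth u x' : Fin (m + 1) → ℝ) k * ζ.2 k) * Ui i t G ζ)
  have k2 := integral_prod _ hΦ'
  refine k1.symm.trans (k2.trans ?_)
  unfold Pool.Agent.T9h44.LG.Ext
  refine integral_congr_ae (Filter.Eventually.of_forall fun z => ?_)
  show ∫ ξ' : Fin m → ℝ, ee (w * z.1 + ∑ k, (i.insertNth u x' : Fin (m + 1) → ℝ) k *
      (i.insertNth z.2 ξ' : Fin (m + 1) → ℝ) k) *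
      (ee (t * ((i.insertNth z.2 ξ' : Fin (m + 1) → ℝ) i ^ 2 / z.1)) *
        G (z.1, i.insertNth z.2 ξ')) =
    ee (w * z.1 + u * z.2) * (ee (t * (z.2 ^ 2 / z.1)) *
      ∫ ξ' : Fin m → ℝ, ee (∑ k, x' k * ξ' k) * G (z.1, i.insertNth z.2 ξ'))
  rw [← integral_const_mul, ← integral_const_mul]
  refine integral_congr_ae (Filter.Eventually.of_forall fun ξ' => ?_)
  show ee (w * z.1 + ∑ k, (i.insertNth u x' : Fin (m + 1) → ℝ) k *
      (i.insertNth z.2 ξ' : Fin (m + 1) → ℝ) k) *
      (ee (t * ((i.insertNth z.2 ξ' : Fin (m + 1) → ℝ) i ^ 2 / z.1)) *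
        G (z.1, i.insertNth z.2 ξ')) =
    ee (w * z.1 + u * z.2) * (ee (t * (z.2 ^ 2 / z.1)) *
      (ee (∑ k, x' k * ξ' k) * G (z.1, i.insertNth z.2 ξ')))
  rw [Fin.sum_univ_succAbove _ i]
  simp only [Fin.insertNth_apply_same, Fin.insertNth_apply_succAbove]
  rw [← add_assoc, ee_add']
  ring

/-- measurability in the parameters -/
theorem extN_meas {α : Type*} [MeasurableSpace α] {H : α → ℝ × (Fin n → ℝ) → ℂ}
    (hH : Measurable (Function.uncurry H)) :
    Measurable fun q : α × (ℝ × (Fin n → ℝ)) => ExtN (H q.1) q.2 := by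
  have h1 : StronglyMeasurable fun q : (α × (ℝ × (Fin n → ℝ))) × (ℝ × (Fin n → ℝ)) =>
      ee (q.1.2.1 * q.2.1 + ∑ k, q.1.2.2 k * q.2.2 k) * H q.1.1 q.2 := by
    refine Measurable.stronglyMeasurable (Measurable.mul ?_ ?_)
    · exact ee_cont.measurable.comp (by fun_prop)
    · exact hH.comp ((measurable_fst.comp measurable_fst).prodMk measurable_snd)
  exact h1.integral_prod_right'.measurable

/-- (GEN) in the variables `(w, x_i)` -/
theorem gen_one {K : ℝ≥0∞} {s₀ A : ℝ}
    (gen : ∀ G : ℝ × ℝ → ℂ, Nice G →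
      (∀ ζ, G ζ ≠ 0 → s₀ ≤ ζ.1 ∧ ζ.1 ≤ 4 * s₀ ∧ |ζ.2| ≤ A * ζ.1) →
      ∫⁻ c in Set.Icc (-4 : ℝ) 4, ∫⁻ z : ℝ × ℝ, ‖Ext (Uo c G) z‖ₑ ^ 4 ≤
        K * ∫⁻ z : ℝ × ℝ, ‖Ext G z‖ₑ ^ 4)
    (i : Fin n) (G : ℝ × (Fin n → ℝ) → ℂ) (hG : NiceN G)
    (hs : ∀ ζ, G ζ ≠ 0 → s₀ ≤ ζ.1 ∧ ζ.1 ≤ 4 * s₀ ∧ ∀ i, |ζ.2 i| ≤ A * ζ.1) :
    ∫⁻ t in Set.Icc (-4 : ℝ) 4, ∫⁻ p : ℝ × (Fin n → ℝ), ‖ExtN (Ui i t G) p‖ₑ ^ 4 ≤
      K * ∫⁻ p : ℝ × (Fin n → ℝ), ‖ExtN G p‖ₑ ^ 4 := by
  obtain _ | m := n
  · exact i.elim0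
  have hUm : Measurable (Function.uncurry fun t : ℝ => Ui i t G) := by
    refine Measurable.mul (ee_cont.measurable.comp ?_) (hG.1.comp measurable_snd)
    refine measurable_fst.mul (Measurable.div ?_ (measurable_fst.comp measurable_snd))
    exact ((measurable_pi_apply i).comp (measurable_snd.comp measurable_snd)).pow_const 2
  have hm1 := extN_meas hUm
  have h0 : Ui i 0 G = G := by
    funext ζ
    simp [Ui, ee]
  have step : ∀ t : ℝ, ∫⁻ p : ℝ × (Fin (m + 1) → ℝ), ‖ExtN (Ui i t G) p‖ₑ ^ 4 =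
      ∫⁻ x' : Fin m → ℝ, ∫⁻ z : ℝ × ℝ, ‖Ext (Uo t (Sl i G x')) z‖ₑ ^ 4 := by
    intro t
    have hm2 : Measurable fun p : ℝ × (Fin (m + 1) → ℝ) => ‖ExtN (Ui i t G) p‖ₑ ^ 4 :=
      ((hm1.comp (measurable_prodMk_left (x := t))).enorm).pow_const 4
    have k1 := (mp_eqv i).lintegral_comp hm2
    have k2 := lintegral_prod_symm' _ (hm2.comp (eqv i).measurable)
      (μ := (volume : Measure (ℝ × ℝ))) (ν := (volume : Measure (Fin m → ℝ)))
    refine k1.symm.trans (k2.trans ?_)
    refine lintegral_congr fun x' => lintegral_congr fun z => ?_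
    show ‖ExtN (Ui i t G) (z.1, i.insertNth z.2 x')‖ₑ ^ 4 = _
    rw [ext_slice i hG]
  have step0 := step 0
  rw [h0] at step0
  have hm3 : Measurable fun q : (ℝ × (Fin m → ℝ)) × (ℝ × ℝ) =>
      ‖Ext (Uo q.1.1 (Sl i G q.1.2)) q.2‖ₑ ^ 4 := by
    have : (fun q : (ℝ × (Fin m → ℝ)) × (ℝ × ℝ) => ‖Ext (Uo q.1.1 (Sl i G q.1.2)) q.2‖ₑ ^ 4) =
        fun q => ‖ExtN (Ui i q.1.1 G) (q.2.1, i.insertNth q.2.2 q.1.2)‖ₑ ^ 4 := by
      funext q
      rw [ext_slice i hG]
    rw [this]
    have hg0 : Measurable fun q : (ℝ × (Fin m → ℝ)) × (ℝ × ℝ) => (q.2, q.1.2) :=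
      measurable_snd.prodMk (measurable_snd.comp measurable_fst)
    have hg1 := (meas_ins i).comp hg0
    have hg : Measurable fun q : (ℝ × (Fin m → ℝ)) × (ℝ × ℝ) =>
        (q.1.1, (q.2.1, (i.insertNth q.2.2 q.1.2 : Fin (m + 1) → ℝ))) :=
      Measurable.prodMk (measurable_fst.comp measurable_fst) hg1
    have hg2 := hm1.comp hg
    exact (Measurable.enorm hg2).pow_const 4
  have e0 : ∀ H : ℝ × ℝ → ℂ, Uo 0 H = H := by
    intro H
    funext ζ
    simp [Uo, ee]
  simp only [e0] at step0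
  obtain ⟨E, hE⟩ : ∃ E : ℝ → (Fin m → ℝ) → ℝ≥0∞, ∀ t x', E t x' =
      ∫⁻ z : ℝ × ℝ, ‖Ext (Uo t (Sl i G x')) z‖ₑ ^ 4 := ⟨_, fun _ _ => rfl⟩
  obtain ⟨E₀, hE₀⟩ : ∃ E₀ : (Fin m → ℝ) → ℝ≥0∞, ∀ x', E₀ x' =
      ∫⁻ z : ℝ × ℝ, ‖Ext (Sl i G x') z‖ₑ ^ 4 := ⟨_, fun _ => rfl⟩
  have hEm : Measurable (Function.uncurry E) := by
    have h5 : Measurable fun q : ℝ × (Fin m → ℝ) =>
      ∫⁻ z : ℝ × ℝ, ‖Ext (Uo q.1 (Sl i G q.2)) z‖ₑ ^ 4 := hm3.lintegral_prod_right'
    have h6 : Function.uncurry E = fun q : ℝ × (Fin m → ℝ) =>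
        ∫⁻ z : ℝ × ℝ, ‖Ext (Uo q.1 (Sl i G q.2)) z‖ₑ ^ 4 := by
      funext q
      exact hE q.1 q.2
    rw [h6]
    exact h5
  have hE0' : E₀ = fun x' => E 0 x' := by
    funext x'
    rw [hE, hE₀, e0]
  have hE₀m : Measurable E₀ := by
    rw [hE0']
    exact hEm.comp measurable_prodMk_left
  have hle : ∀ x', ∫⁻ t in Set.Icc (-4 : ℝ) 4, E t x' ≤ K * E₀ x' := by
    intro x'
    simp only [hE, hE₀]
    refine gen _ (nice_sl i hG x') fun z hz => ?_
    obtain ⟨ζ, h1, h2, h3⟩ := sl_supp i G x' z hz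
    have h4 := hs ζ h1
    rw [h2] at h4
    exact ⟨h4.1, h4.2.1, h3 ▸ h4.2.2 i⟩
  simp only [← hE] at step
  simp only [← hE₀] at step0
  simp only [step, step0]
  clear step step0 hm3 hm1 hUm hE hE₀
  calc ∫⁻ t in Set.Icc (-4 : ℝ) 4, ∫⁻ x' : Fin m → ℝ, E t x'
      = ∫⁻ x' : Fin m → ℝ, ∫⁻ t in Set.Icc (-4 : ℝ) 4, E t x' :=
        lintegral_lintegral_swap hEm.aemeasurable
    _ ≤ ∫⁻ x' : Fin m → ℝ, K * E₀ x' := lintegral_mono hle
    _ = K * ∫⁻ x' : Fin m → ℝ, E₀ x' := lintegral_const_mul _ hE₀m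

/-- PIECE (IT) -/
theorem s_it (gen : S_gen) (n : ℕ) : S_it n := by
  classical
  intro ε hε
  obtain ⟨C, N, hC, hN, h⟩ := gen (ε / (n + 1)) (by positivity)
  refine ⟨8 * C ^ (n - 1) + 1, N * n + 1, by positivity, by positivity,
    fun j b s₀ A hs₀ hA G hG hs => ?_⟩
  set K : ℝ≥0∞ := ENNReal.ofReal (C * (1 + s₀) ^ (ε / (n + 1)) * A ^ N) with hK
  have hK' : K ≠ ⊤ := ENNReal.ofReal_ne_top
  set f : (Fin n → ℝ) → ℝ≥0∞ := fun c => ∫⁻ p : ℝ × (Fin n → ℝ), ‖ExtN (UN c G) p‖ₑ ^ 4 with hf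
  have hfm : Measurable f := by
    have h1 : Measurable (Function.uncurry fun c : Fin n → ℝ => UN c G) := by
      refine Measurable.mul (ee_cont.measurable.comp ?_) (hG.1.comp measurable_snd)
      refine Measurable.div ?_ (measurable_fst.comp measurable_snd)
      refine Finset.measurable_sum _ fun k _ => ?_
      exact ((measurable_pi_apply k).comp measurable_fst).mul
        (((measurable_pi_apply k).comp (measurable_snd.comp measurable_snd)).pow_const 2)
    have h2 := (extN_meas h1).enorm.pow_const 4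
    exact h2.lintegral_prod_right'
  have main := cube_iter K hK' f hfm j b fun i _ x => ?_
  · refine main.trans (mul_le_mul_left ?_ _)
    rw [hK, ← ENNReal.ofReal_pow (by positivity),
      show (8 : ℝ≥0∞) = ENNReal.ofReal 8 by norm_num, ← ENNReal.ofReal_mul (by norm_num)]
    refine ENNReal.ofReal_le_ofReal ?_
    rw [mul_pow, mul_pow]
    have a1 : ((1 + s₀) ^ (ε / (n + 1))) ^ (n - 1) ≤ (1 + s₀) ^ ε := by
      rw [← Real.rpow_natCast, ← Real.rpow_mul (by positivity)]
      refine Real.rpow_le_rpow_of_exponent_le (by linarith) ?_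
      rw [div_mul_eq_mul_div, div_le_iff₀ (by positivity)]
      refine mul_le_mul_of_nonneg_left ?_ hε.le
      have : ((n - 1 : ℕ) : ℝ) ≤ n := by exact_mod_cast Nat.sub_le n 1
      linarith
    have a2 : (A ^ N) ^ (n - 1) ≤ A ^ (N * n + 1) := by
      rw [← Real.rpow_natCast, ← Real.rpow_mul (by positivity)]
      refine Real.rpow_le_rpow_of_exponent_le hA ?_
      have : ((n - 1 : ℕ) : ℝ) ≤ n := by exact_mod_cast Nat.sub_le n 1
      nlinarith
    calc 8 * (C ^ (n - 1) * ((1 + s₀) ^ (ε / (n + 1))) ^ (n - 1) * (A ^ N) ^ (n - 1))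
        ≤ 8 * (C ^ (n - 1) * (1 + s₀) ^ ε * A ^ (N * n + 1)) := by gcongr
      _ ≤ (8 * C ^ (n - 1) + 1) * (1 + s₀) ^ ε * A ^ (N * n + 1) := by
          have : 0 ≤ (1 + s₀) ^ ε * A ^ (N * n + 1) := by positivity
          nlinarith
  · have e1 : ∀ t : ℝ, UN (Function.update x i t) G = Ui i t (UN (Function.update x i 0) G) := by
      intro t
      funext ζ
      unfold UN Ui
      rw [← mul_assoc, ← ee_add']
      congr 2
      rw [← mul_div_assoc, ← add_div]
      congr 1
      rw [← Finset.add_sum_erase _ _ (Finset.mem_univ i),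
        ← Finset.add_sum_erase _ (fun k => Function.update x i 0 k * ζ.2 k ^ 2) (Finset.mem_univ i)]
      simp only [Function.update_self, zero_mul, zero_add]
      congr 1
      refine Finset.sum_congr rfl fun k hk => ?_
      rw [Function.update_of_ne (Finset.ne_of_mem_erase hk),
        Function.update_of_ne (Finset.ne_of_mem_erase hk)]
    show ∫⁻ t in Set.Icc (-4 : ℝ) 4, ∫⁻ p : ℝ × (Fin n → ℝ),
      ‖ExtN (UN (Function.update x i t) G) p‖ₑ ^ 4 ≤ K * f (Function.update x i 0)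
    have e2 : (fun t : ℝ => ∫⁻ p : ℝ × (Fin n → ℝ), ‖ExtN (UN (Function.update x i t) G) p‖ₑ ^ 4) =
        fun t : ℝ => ∫⁻ p : ℝ × (Fin n → ℝ),
          ‖ExtN (Ui i t (UN (Function.update x i 0) G)) p‖ₑ ^ 4 := by
      funext t
      rw [e1 t]
    rw [e2]
    refine gen_one (fun G' hG' hs' => h s₀ A hs₀ hA G' hG' hs') i _ ?_ ?_
    · obtain ⟨hm, ⟨B, hB⟩, r, hr⟩ := hG
      refine ⟨?_, ⟨B, fun ζ => ?_⟩, r, fun ζ hζ => hr ζ (right_ne_zero_of_mul hζ)⟩
      · refine Measurable.mul (ee_cont.measurable.comp ?_) hm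
        refine Measurable.div ?_ measurable_fst
        refine Finset.measurable_sum _ fun k _ => ?_
        exact measurable_const.mul (((measurable_pi_apply k).comp measurable_snd).pow_const 2)
      · unfold UN
        rw [norm_mul, norm_ee', one_mul]
        exact hB ζ
    · intro ζ hζ
      exact hs ζ (right_ne_zero_of_mul hζ)

end slices

end Pool.Agent.T9h71.LG
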