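import Pool.Agent.T9h71.LG.KHat

/-!
# (KF) the kernel on the Fourier side (piece S_kf)
-/

set_option autoImplicit false

namespace Pool.Agent.T9h71.LG

open MeasureTheory Real Pool.Agent.T9h44.LG Pool.Agent.T9h44.LS4
open Pool.Agent.T9h82.LS (rate ch norm_ch gauss_n gauss_int int_pow_exp gamma_int Ker_eq
  integrable_Ker norm_Ker bet_ne norm_bet_inv_le re_bet_inv_nonneg bet_zero_cpow)
open Filter Topology Set
open scoped ENNReal ComplexConjugate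

variable {n : ℕ}

theorem ch_eq (ξ z : Fin n → ℝ) : ch ξ z = ee (-∑ i, z i * ξ i) := by
  unfold ch ee
  congr 2
  push_cast
  ring

theorem am_nonneg (M : ℕ) (R : ℝ) {σ : ℝ} (hσ : 0 < σ) : 0 ≤ am M R σ := by
  unfold am
  have := Real.rpow_nonneg hσ.le ((M : ℝ) - 1 / 2)
  positivity

theorem am_int (M : ℕ) {R : ℝ} (hR : 0 < R) : IntegrableOn (am M R) (Ioi 0) := by
  have h := int_pow_exp (a := (M : ℝ) + 1 / 2) (ε := 4 * π / R) (by positivity) (by positivity)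
  refine h.congr_fun ?_ measurableSet_Ioi
  intro s _
  unfold am
  beta_reduce
  rw [show (M : ℝ) + 1 / 2 - 1 = (M : ℝ) - 1 / 2 by ring,
    show 4 * π / R * s = 4 * π * s / R by ring]

theorem am_meas (M : ℕ) (R : ℝ) : Measurable (am M R) := by
  unfold am
  fun_prop

/-- the constant -/
noncomputable def K0 (M : ℕ) (g : Fin n → ℝ) : ℂ :=
  ((2 * 2 ^ ((M : ℝ) - 1 / 2) * (∏ i, g i) ^ (-(1 / 2) : ℝ) : ℝ) : ℂ) *
    Complex.exp (-(Complex.I * (π / 4 : ℝ))) ^ n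

theorem norm_K0 (M : ℕ) {g : Fin n → ℝ} (hg : ∀ i, 1 ≤ g i) :
    ‖K0 M g‖ ≤ 2 * 2 ^ ((M : ℝ) - 1 / 2) := by
  have h1 : ‖Complex.exp (-(Complex.I * (π / 4 : ℝ)))‖ = 1 := by
    rw [show -(Complex.I * ((π / 4 : ℝ) : ℂ)) = ((-(π / 4) : ℝ) : ℂ) * Complex.I by
      push_cast; ring, Complex.norm_exp_ofReal_mul_I]
  have h2 : 1 ≤ ∏ i, g i := by
    calc (1 : ℝ) = ∏ _i : Fin n, (1 : ℝ) := by simp
      _ ≤ ∏ i, g i := Finset.prod_le_prod (fun _ _ => zero_le_one) fun i _ => hg i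
  have h3 : (∏ i, g i) ^ (-(1 / 2) : ℝ) ≤ 1 :=
    Real.rpow_le_one_of_one_le_of_nonpos h2 (by norm_num)
  have h4 : 0 ≤ (∏ i, g i) ^ (-(1 / 2) : ℝ) := Real.rpow_nonneg (by linarith) _
  unfold K0
  rw [norm_mul, norm_pow, h1, one_pow, mul_one, Complex.norm_real,
    Real.norm_of_nonneg (by positivity)]
  exact mul_le_of_le_one_right (by positivity) h3

/-- the Fourier transform of the kernel -/
theorem hat_am {M : ℕ} (hn : 1 ≤ n) {R : ℝ} (hR : 0 < R) {g : Fin n → ℝ} (hg : ∀ i, 0 < g i)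
    (w : ℝ) (ξ : Fin n → ℝ) :
    ∫ z : Fin n → ℝ, ee (-∑ i, z i * ξ i) * KM M n R⁻¹ w g z =
      K0 M g * ∫ σ in Ioi (0 : ℝ), ((am M R σ : ℝ) : ℂ) *
        (ee (w * σ) * ee ((∑ i, 1 / (4 * g i) * ξ i ^ 2) / σ)) := by
  have h1 := hatM (M := M) hn (inv_pos.2 hR) hg w ξ
  simp only [ch_eq] at h1
  rw [h1]
  set P : ℝ := (∏ i, g i) ^ (-(1 / 2) : ℝ) with hP
  set N : ℝ := ∑ i, ξ i ^ 2 / g i with hN
  have h2 := integral_comp_mul_left_Ioi (fun s : ℝ => ((phM M n R⁻¹ s : ℝ) : ℂ) *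
        (Complex.exp (((π * s * w : ℝ) : ℂ) * Complex.I) *
        ((P : ℂ) * ((Pool.Agent.T9h82.LS.bet 0 s)⁻¹ ^ (1 / 2 : ℂ)) ^ n *
          Complex.exp (-((π * N : ℝ) * (Pool.Agent.T9h82.LS.bet 0 s)⁻¹))))) 0 (two_pos : (0 : ℝ) < 2)
  rw [mul_zero] at h2
  have h3 : ∫ s in Ioi (0 : ℝ), ((phM M n R⁻¹ s : ℝ) : ℂ) *
        (Complex.exp (((π * s * w : ℝ) : ℂ) * Complex.I) *
        ((P : ℂ) * ((Pool.Agent.T9h82.LS.bet 0 s)⁻¹ ^ (1 / 2 : ℂ)) ^ n *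
          Complex.exp (-((π * N : ℝ) * (Pool.Agent.T9h82.LS.bet 0 s)⁻¹)))) =
      2 * ∫ s in Ioi (0 : ℝ), ((phM M n R⁻¹ (2 * s) : ℝ) : ℂ) *
        (Complex.exp (((π * (2 * s) * w : ℝ) : ℂ) * Complex.I) *
        ((P : ℂ) * ((Pool.Agent.T9h82.LS.bet 0 (2 * s))⁻¹ ^ (1 / 2 : ℂ)) ^ n *
          Complex.exp (-((π * N : ℝ) * (Pool.Agent.T9h82.LS.bet 0 (2 * s))⁻¹)))) := by
    rw [h2, Complex.real_smul]
    push_cast
    ring
  rw [h3]
  have e0 : (∑ i, 1 / (4 * g i) * ξ i ^ 2) = N / 4 := by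
    rw [hN, Finset.sum_div]
    refine Finset.sum_congr rfl fun i _ => ?_
    have := (hg i).ne'
    field_simp
  rw [e0]
  unfold K0
  rw [← hP, ← integral_const_mul, ← integral_const_mul]
  refine setIntegral_congr_fun measurableSet_Ioi fun s hs => ?_
  have hs' : 0 < s := hs
  have hs2 : 0 < 2 * s := by positivity
  have hs0 : (s : ℂ) ≠ 0 := Complex.ofReal_ne_zero.2 hs'.ne'
  rw [bet_zero_cpow hs2, mul_pow]
  have e4 : (2 * s) ^ (((n : ℝ) - 1) / 2 + M) * ((2 * s) ^ (-(1 / 2) : ℝ)) ^ n =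
      2 ^ ((M : ℝ) - 1 / 2) * s ^ ((M : ℝ) - 1 / 2) := by
    rw [← Real.rpow_natCast, ← Real.rpow_mul hs2.le, ← Real.rpow_add hs2,
      ← Real.mul_rpow (by norm_num) hs'.le]
    congr 1
    ring
  have e5 : -(((π * N : ℝ) : ℂ) * (Pool.Agent.T9h82.LS.bet 0 (2 * s))⁻¹) =
      ((2 * π * (N / 4 / s) : ℝ) : ℂ) * Complex.I := by
    unfold Pool.Agent.T9h82.LS.bet
    rw [Complex.ofReal_zero, zero_add, mul_inv, Complex.inv_I]
    push_cast
    field_simp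
    ring
  have e4C : (((2 * s) ^ (((n : ℝ) - 1) / 2 + M) : ℝ) : ℂ) *
      (((2 * s) ^ (-(1 / 2) : ℝ) : ℝ) : ℂ) ^ n =
      ((2 ^ ((M : ℝ) - 1 / 2) : ℝ) : ℂ) * ((s ^ ((M : ℝ) - 1 / 2) : ℝ) : ℂ) := by
    rw [← Complex.ofReal_pow, ← Complex.ofReal_mul, e4, Complex.ofReal_mul]
  have e6 : Complex.exp (((π * (2 * s) * w : ℝ) : ℂ) * Complex.I) = ee (w * s) := by
    unfold ee
    congr 2
    push_cast
    ring
  have e7 : Complex.exp (((2 * π * (N / 4 / s) : ℝ) : ℂ) * Complex.I) = ee (N / 4 / s) := rfl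
  have e8 : Real.exp (-(2 * π * (2 * s) * R⁻¹)) = Real.exp (-(4 * π * s / R)) := by
    congr 1
    ring
  rw [e5, e6, e7]
  unfold phM am
  rw [e8]
  simp only [Complex.ofReal_mul]
  generalize ((Real.exp (-(4 * π * s / R)) : ℝ) : ℂ) = c1
  generalize (((2 * s) ^ (((n : ℝ) - 1) / 2 + M) : ℝ) : ℂ) = a at e4C ⊢
  generalize (((2 * s) ^ (-(1 / 2) : ℝ) : ℝ) : ℂ) ^ n = b at e4C ⊢
  generalize ((2 ^ ((M : ℝ) - 1 / 2) : ℝ) : ℂ) = a' at e4C ⊢
  generalize ((s ^ ((M : ℝ) - 1 / 2) : ℝ) : ℂ) = b' at e4C ⊢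
  generalize Complex.exp (-(Complex.I * ((π / 4 : ℝ) : ℂ))) ^ n = c3
  push_cast
  linear_combination (2 * c1 * ee (w * s) * P * c3 * ee (N / 4 / s)) * e4C

/-- the full integrand -/
noncomputable def Phi (M : ℕ) (R w : ℝ) (c x : Fin n → ℝ) (G : (Fin n → ℝ) → ℂ)
    (ζ : ℝ × (Fin n → ℝ)) : ℂ :=
  (Ioi (0 : ℝ)).indicator (fun σ : ℝ => ((am M R σ : ℝ) : ℂ) *
    (ee (w * σ) * ee ((∑ i, c i * ζ.2 i ^ 2) / σ))) ζ.1 * (ee (∑ i, x i * ζ.2 i) * G ζ.2)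

theorem niceV_int {G : (Fin n → ℝ) → ℂ} (hG : NiceV G) : Integrable G := by
  obtain ⟨hm, ⟨B, hB⟩, r, hr⟩ := hG
  exact integrable_bdd hm.aestronglyMeasurable hB (vol_cube r)
    fun ξ hξ k _ => abs_le.1 (hr ξ hξ k)

theorem phi_meas (M : ℕ) (R w : ℝ) (c x : Fin n → ℝ) {G : (Fin n → ℝ) → ℂ} (hG : Measurable G) :
    Measurable (Phi M R w c x G) := by
  have h1 : Phi M R w c x G = fun ζ : ℝ × (Fin n → ℝ) =>
      (if 0 < ζ.1 then ((am M R ζ.1 : ℝ) : ℂ) * (ee (w * ζ.1) *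
        ee ((∑ i, c i * ζ.2 i ^ 2) / ζ.1)) else 0) * (ee (∑ i, x i * ζ.2 i) * G ζ.2) := by
    funext ζ
    unfold Phi
    congr 1
  rw [h1]
  refine Measurable.mul (Measurable.ite ?_ ?_ measurable_const) (Measurable.mul ?_ ?_)
  · exact measurableSet_lt measurable_const measurable_fst
  · refine Measurable.mul ?_ (Measurable.mul ?_ ?_)
    · exact Complex.measurable_ofReal.comp ((am_meas M R).comp measurable_fst)
    · exact ee_cont.measurable.comp (by fun_prop)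
    · exact ee_cont.measurable.comp (by fun_prop)
  · exact ee_cont.measurable.comp (by fun_prop)
  · exact hG.comp measurable_snd

theorem phi_norm (M : ℕ) (R w : ℝ) (c x : Fin n → ℝ) (G : (Fin n → ℝ) → ℂ)
    (ζ : ℝ × (Fin n → ℝ)) :
    ‖Phi M R w c x G ζ‖ = (Ioi (0 : ℝ)).indicator (am M R) ζ.1 * ‖G ζ.2‖ := by
  unfold Phi
  rw [norm_mul, norm_mul, norm_ee', one_mul]
  congr 1
  by_cases h : ζ.1 ∈ Ioi (0 : ℝ)
  · rw [Set.indicator_of_mem h, Set.indicator_of_mem h, norm_mul, norm_mul, norm_ee', norm_ee',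
      mul_one, mul_one, Complex.norm_real, Real.norm_of_nonneg (am_nonneg M R h)]
  · rw [Set.indicator_of_notMem h, Set.indicator_of_notMem h, norm_zero]

theorem phi_int (M : ℕ) {R : ℝ} (hR : 0 < R) (w : ℝ) (c x : Fin n → ℝ) {G : (Fin n → ℝ) → ℂ}
    (hG : NiceV G) : Integrable (Phi M R w c x G) := by
  have h1 : Integrable (fun ζ : ℝ × (Fin n → ℝ) => (Ioi (0 : ℝ)).indicator (am M R) ζ.1 * ‖G ζ.2‖)
      ((volume : Measure ℝ).prod volume) :=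
    ((integrable_indicator_iff measurableSet_Ioi).2 (am_int M hR)).mul_prod (niceV_int hG).norm
  exact Integrable.mono' h1 (phi_meas M R w c x hG.1).aestronglyMeasurable
    (Eventually.of_forall fun ζ => (phi_norm M R w c x G ζ).le)

/-- the left side -/
theorem kf_left {M : ℕ} (hn : 1 ≤ n) {R : ℝ} (hR : 0 < R) {g : Fin n → ℝ} (hg : ∀ i, 0 < g i)
    (w : ℝ) (x : Fin n → ℝ) {G : (Fin n → ℝ) → ℂ} (hG : NiceV G) :
    ∫ u : Fin n → ℝ, KM M n R⁻¹ w g (x - u) * ExV G u =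
      K0 M g * ∫ ζ : ℝ × (Fin n → ℝ), Phi M R w (fun i => 1 / (4 * g i)) x G ζ := by
  set K := KM M n R⁻¹ w g with hK
  set c : Fin n → ℝ := fun i => 1 / (4 * g i) with hc
  have hKi : Integrable K := integrable_KM hn (inv_pos.2 hR) w hg
  have hGi := niceV_int hG
  have hKm : Measurable K := measurable_KM (inv_pos.2 hR) w g
  have s1 : ∫ u : Fin n → ℝ, K (x - u) * ExV G u = ∫ z : Fin n → ℝ, K z * ExV G (x - z) := by
    rw [← integral_sub_left_eq_self (fun z => K z * ExV G (x - z)) (volume : Measure (Fin n → ℝ)) x]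
    refine integral_congr_ae (Eventually.of_forall fun u => ?_)
    show K (x - u) * ExV G u = K (x - u) * ExV G (x - (x - u))
    rw [sub_sub_cancel]
  have s2 : ∫ z : Fin n → ℝ, K z * ExV G (x - z) = ∫ z : Fin n → ℝ, ∫ ξ : Fin n → ℝ,
      (ee (-∑ i, z i * ξ i) * K z) * (ee (∑ i, x i * ξ i) * G ξ) := by
    refine integral_congr_ae (Eventually.of_forall fun z => ?_)
    show K z * ∫ ξ : Fin n → ℝ, ee (∑ i, (x - z) i * ξ i) * G ξ = _
    rw [← integral_const_mul]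
    refine integral_congr_ae (Eventually.of_forall fun ξ => ?_)
    show K z * (ee (∑ i, (x - z) i * ξ i) * G ξ) =
      (ee (-∑ i, z i * ξ i) * K z) * (ee (∑ i, x i * ξ i) * G ξ)
    have : ∑ i, (x - z) i * ξ i = -∑ i, z i * ξ i + ∑ i, x i * ξ i := by
      simp only [Pi.sub_apply, sub_mul, Finset.sum_sub_distrib]
      ring
    rw [this, ee_add']
    ring
  have s3 : ∫ z : Fin n → ℝ, ∫ ξ : Fin n → ℝ,
      (ee (-∑ i, z i * ξ i) * K z) * (ee (∑ i, x i * ξ i) * G ξ) = ∫ ξ : Fin n → ℝ,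
      ∫ z : Fin n → ℝ, (ee (-∑ i, z i * ξ i) * K z) * (ee (∑ i, x i * ξ i) * G ξ) := by
    refine integral_integral_swap ?_
    have hdom : Integrable (fun p : (Fin n → ℝ) × (Fin n → ℝ) => ‖K p.1‖ * ‖G p.2‖)
        ((volume : Measure (Fin n → ℝ)).prod volume) := hKi.norm.mul_prod hGi.norm
    refine Integrable.mono' hdom ?_ (Eventually.of_forall fun p => ?_)
    · refine Measurable.aestronglyMeasurable (Measurable.mul (Measurable.mul ?_ ?_)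
        (Measurable.mul ?_ ?_))
      · exact ee_cont.measurable.comp (by fun_prop)
      · exact hKm.comp measurable_fst
      · exact ee_cont.measurable.comp (by fun_prop)
      · exact hG.1.comp measurable_snd
    · show ‖(ee (-∑ i, p.1 i * p.2 i) * K p.1) * (ee (∑ i, x i * p.2 i) * G p.2)‖ ≤ _
      rw [norm_mul, norm_mul, norm_mul, norm_ee', norm_ee', one_mul, one_mul]
  have s4 : ∫ ξ : Fin n → ℝ, ∫ z : Fin n → ℝ,
      (ee (-∑ i, z i * ξ i) * K z) * (ee (∑ i, x i * ξ i) * G ξ) =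
      K0 M g * ∫ ξ : Fin n → ℝ, ∫ σ : ℝ, Phi M R w c x G (σ, ξ) := by
    rw [← integral_const_mul]
    refine integral_congr_ae (Eventually.of_forall fun ξ => ?_)
    show ∫ z : Fin n → ℝ, (ee (-∑ i, z i * ξ i) * K z) * (ee (∑ i, x i * ξ i) * G ξ) =
      K0 M g * ∫ σ : ℝ, Phi M R w c x G (σ, ξ)
    rw [integral_mul_const, hK, hat_am hn hR hg w ξ]
    have e9 : ∀ σ : ℝ, Phi M R w c x G (σ, ξ) =
        (Ioi (0 : ℝ)).indicator (fun σ : ℝ => ((am M R σ : ℝ) : ℂ) *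
          (ee (w * σ) * ee ((∑ i, c i * ξ i ^ 2) / σ))) σ * (ee (∑ i, x i * ξ i) * G ξ) :=
      fun σ => rfl
    simp only [e9]
    rw [integral_mul_const, integral_indicator measurableSet_Ioi]
    ring
  have s5 : ∫ ζ : ℝ × (Fin n → ℝ), Phi M R w c x G ζ =
      ∫ ξ : Fin n → ℝ, ∫ σ : ℝ, Phi M R w c x G (σ, ξ) :=
    integral_prod_symm _ (phi_int M hR w c x hG)
  rw [s1, s2, s3, s4, s5]

/-- the dyadic pieces -/
theorem ext_piece (M : ℕ) (R w : ℝ) (c x : Fin n → ℝ) (G : (Fin n → ℝ) → ℂ) (l : ℤ) :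
    ExtN (UN c fun ζ => ((bet (ζ.1 / 2 ^ l) * am M R ζ.1 : ℝ) : ℂ) * G ζ.2) (w, x) =
      ∫ ζ : ℝ × (Fin n → ℝ), ((bet (ζ.1 / 2 ^ l) : ℝ) : ℂ) * Phi M R w c x G ζ := by
  unfold ExtN UN
  refine integral_congr_ae (Eventually.of_forall fun ζ => ?_)
  show ee (w * ζ.1 + ∑ i, x i * ζ.2 i) * (ee ((∑ i, c i * ζ.2 i ^ 2) / ζ.1) *
    (((bet (ζ.1 / 2 ^ l) * am M R ζ.1 : ℝ) : ℂ) * G ζ.2)) =
    ((bet (ζ.1 / 2 ^ l) : ℝ) : ℂ) * Phi M R w c x G ζ
  unfold Phi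
  by_cases h : ζ.1 ∈ Ioi (0 : ℝ)
  · rw [Set.indicator_of_mem h, ee_add']
    push_cast
    ring
  · have h0 : bet (ζ.1 / 2 ^ l) = 0 := by
      refine bet_zero ?_
      have h1 : ζ.1 ≤ 0 := not_lt.1 h
      have h2 : (0 : ℝ) < 2 ^ l := by positivity
      have := div_nonpos_of_nonpos_of_nonneg h1 h2.le
      linarith
    rw [h0]
    simp

/-- PIECE (KF) -/
theorem s_kf (n : ℕ) : S_kf n := by
  intro hn M
  refine ⟨2 * 2 ^ ((M : ℝ) - 1 / 2), by positivity, fun g hg w R x hR G hG => ?_⟩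
  have hR0 : 0 < R := by linarith
  have hg0 : ∀ i, 0 < g i := fun i => by linarith [(hg i).1]
  set c : Fin n → ℝ := fun i => 1 / (4 * g i) with hc
  rw [kf_left hn hR0 hg0 w x hG]
  set F : ℤ → ℝ × (Fin n → ℝ) → ℂ := fun l ζ =>
    ((bet (ζ.1 / 2 ^ l) : ℝ) : ℂ) * Phi M R w c x G ζ with hF
  have hFm : ∀ l, Measurable (F l) := by
    intro l
    refine Measurable.mul (Complex.measurable_ofReal.comp (bet_cont.measurable.comp ?_))
      (phi_meas M R w c x hG.1)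
    fun_prop
  have hsum : ∀ ζ, ∑' l, F l ζ = Phi M R w c x G ζ := by
    intro ζ
    by_cases h : ζ.1 ∈ Ioi (0 : ℝ)
    · have h1 : HasSum (fun l : ℤ => ((bet (ζ.1 / 2 ^ l) : ℝ) : ℂ)) ((1 : ℝ) : ℂ) :=
        Complex.hasSum_ofReal.2 (bet_hasSum h)
      have h2 := h1.mul_right (Phi M R w c x G ζ)
      rw [Complex.ofReal_one, one_mul] at h2
      exact h2.tsum_eq
    · have h0 : Phi M R w c x G ζ = 0 := by
        unfold Phi
        rw [Set.indicator_of_notMem h, zero_mul]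
      simp only [hF, h0, mul_zero, tsum_zero]
  have hnorm : ∀ ζ, ∑' l, ‖F l ζ‖ₑ ≤ ‖Phi M R w c x G ζ‖ₑ := by
    intro ζ
    by_cases h : ζ.1 ∈ Ioi (0 : ℝ)
    · have h1 : ∀ l : ℤ, ‖F l ζ‖ₑ = ENNReal.ofReal (bet (ζ.1 / 2 ^ l)) * ‖Phi M R w c x G ζ‖ₑ := by
        intro l
        rw [hF]
        beta_reduce
        rw [enorm_mul, ← ofReal_norm (((bet (ζ.1 / 2 ^ l) : ℝ) : ℂ)), Complex.norm_real,
          Real.norm_of_nonneg (bet_nonneg _)]
      simp only [h1]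
      rw [ENNReal.tsum_mul_right, ← ENNReal.ofReal_tsum_of_nonneg (fun l => bet_nonneg _)
        (bet_hasSum h).summable, (bet_hasSum h).tsum_eq, ENNReal.ofReal_one, one_mul]
    · have h0 : Phi M R w c x G ζ = 0 := by
        unfold Phi
        rw [Set.indicator_of_notMem h, zero_mul]
      simp only [hF, h0, mul_zero, enorm_zero, tsum_zero, le_refl]
  have hfin : ∑' l, ∫⁻ ζ, ‖F l ζ‖ₑ ≠ ⊤ := by
    rw [← lintegral_tsum fun l => (hFm l).enorm.aemeasurable]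
    exact ((lintegral_mono hnorm).trans_lt (phi_int M hR0 w c x hG).2).ne
  have key := integral_tsum (fun l => (hFm l).aestronglyMeasurable) hfin
  simp only [hsum] at key
  rw [key, enorm_mul]
  refine mul_le_mul' ?_ ?_
  · rw [← ofReal_norm]
    exact ENNReal.ofReal_le_ofReal (norm_K0 M fun i => (hg i).1)
  · refine enorm_tsum_le_tsum_enorm.trans (le_of_eq ?_)
    congr 1
    funext l
    rw [ext_piece]

end Pool.Agent.T9h71.LG
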