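import Pool.Agent.T9h71.LG.It
import Pool.Agent.T9h82.LS.KHat

/-!
# the kernel on the Fourier side: size, integrability, Fourier transform
-/

set_option autoImplicit false

namespace Pool.Agent.T9h71.LG

open MeasureTheory Real Pool.Agent.T9h44.LG Pool.Agent.T9h44.LS4
open Pool.Agent.T9h82.LS (rate ch norm_ch gauss_n gauss_int int_pow_exp gamma_int Ker_eq
  integrable_Ker norm_Ker bet_ne norm_bet_inv_le re_bet_inv_nonneg bet_zero_cpow)
open Filter Topology Set
open scoped ENNReal ComplexConjugate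

variable {n : ℕ}

/-! ### The dyadic partition -/

theorem bet_nonneg (x : ℝ) : 0 ≤ bet x := by
  unfold bet
  rcases le_total x 1 with h | h
  · rw [Real.smoothTransition.zero_of_nonpos (x := x - 1) (by linarith), sub_zero]
    exact Real.smoothTransition.nonneg _
  · rw [Real.smoothTransition.one_of_one_le (x := 2 * x - 1) (by linarith)]
    linarith [Real.smoothTransition.le_one (x - 1)]

theorem bet_zero {x : ℝ} (h : x ≤ 1 / 2) : bet x = 0 := by
  unfold bet
  rw [Real.smoothTransition.zero_of_nonpos (x := 2 * x - 1) (by linarith),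
    Real.smoothTransition.zero_of_nonpos (x := x - 1) (by linarith), sub_zero]

theorem bet_zero' {x : ℝ} (h : 2 ≤ x) : bet x = 0 := by
  unfold bet
  rw [Real.smoothTransition.one_of_one_le (x := 2 * x - 1) (by linarith),
    Real.smoothTransition.one_of_one_le (x := x - 1) (by linarith), sub_self]

theorem bet_cont : Continuous bet := by
  unfold bet
  exact (Real.smoothTransition.continuous.comp (by fun_prop)).sub
    (Real.smoothTransition.continuous.comp (by fun_prop))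

theorem bet_hasSum {σ : ℝ} (hσ : 0 < σ) : HasSum (fun l : ℤ => bet (σ / 2 ^ l)) 1 := by
  obtain ⟨l₀, h1, h2⟩ := exists_mem_Ico_zpow hσ (y := (2 : ℝ)) (by norm_num)
  have hp : ∀ l : ℤ, (0 : ℝ) < 2 ^ l := fun l => by positivity
  have key : ∑ l ∈ ({l₀, l₀ + 1} : Finset ℤ), bet (σ / 2 ^ l) = 1 := by
    rw [Finset.sum_pair (by omega)]
    have h3 : 1 ≤ σ / 2 ^ l₀ := (one_le_div (hp _)).2 h1
    have h4 : σ / 2 ^ (l₀ + 1) = σ / 2 ^ l₀ / 2 := by
      rw [zpow_add_one₀ (by norm_num)]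
      field_simp
    have h5 : σ / 2 ^ l₀ < 2 := by
      rw [div_lt_iff₀ (hp _)]
      rw [zpow_add_one₀ (by norm_num)] at h2
      linarith
    rw [h4]
    set x := σ / 2 ^ l₀ with hx
    unfold bet
    rw [Real.smoothTransition.one_of_one_le (x := 2 * x - 1) (by linarith),
      Real.smoothTransition.zero_of_nonpos (x := x / 2 - 1) (by linarith),
      show 2 * (x / 2) - 1 = x - 1 by ring]
    ring
  rw [← key]
  refine hasSum_sum_of_ne_finset_zero fun l hl => ?_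
  simp only [Finset.mem_insert, Finset.mem_singleton, not_or] at hl
  rcases lt_or_ge l l₀ with h | h
  · refine bet_zero' ?_
    rw [le_div_iff₀ (hp _)]
    calc (2 : ℝ) * 2 ^ l = 2 ^ (l + 1) := by rw [zpow_add_one₀ (by norm_num)]; ring
      _ ≤ 2 ^ l₀ := zpow_le_zpow_right₀ (by norm_num) (by omega)
      _ ≤ σ := h1
  · refine bet_zero ?_
    rw [div_le_iff₀ (hp _)]
    have : (2 : ℝ) ^ (l₀ + 1) ≤ 2 ^ (l - 1) := zpow_le_zpow_right₀ (by norm_num) (by omega)
    have e : (2 : ℝ) ^ l = 2 ^ (l - 1) * 2 := by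
      rw [← zpow_add_one₀ (by norm_num)]
      congr 1
      ring
    rw [e]
    linarith

/-! ### The kernel -/

theorem rate_re {y : ℝ} (w : ℝ) (g z : Fin n → ℝ) : (rate y w g z).re = 2 * π * y := by
  unfold rate
  simp only [Complex.add_re, Complex.ofReal_re, Complex.re_ofReal_mul, Complex.I_re, mul_zero,
    add_zero]

theorem KM_eq {M : ℕ} {y : ℝ} (hy : 0 < y) (w : ℝ) (g z : Fin n → ℝ) :
    KM M n y w g z = (Real.Gamma (((n : ℝ) + 1) / 2 + M) : ℂ) *
      rate y w g z ^ (-((((n : ℝ) + 1) / 2 + M : ℝ) : ℂ)) := by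
  have hre : 0 < (rate y w g z).re := by
    rw [rate_re]
    positivity
  rw [← gamma_int _ (by positivity) _ hre]
  unfold KM os
  refine setIntegral_congr_fun measurableSet_Ioi fun s _ => ?_
  rw [show ((n : ℝ) + 1) / 2 + M - 1 = ((n : ℝ) - 1) / 2 + M by ring]
  rw [Complex.ofReal_mul, mul_assoc, Complex.ofReal_exp, ← Complex.exp_add]
  congr 2
  unfold rate
  push_cast
  ring

theorem norm_KM {M : ℕ} {y : ℝ} (hy : 0 < y) (w : ℝ) (g z : Fin n → ℝ) :
    ‖KM M n y w g z‖ = Real.Gamma (((n : ℝ) + 1) / 2 + M) *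
      ‖rate y w g z‖ ^ (-(((n : ℝ) + 1) / 2 + M)) := by
  rw [KM_eq hy, norm_mul, Complex.norm_real, Real.norm_of_nonneg (by positivity),
    ← Complex.ofReal_neg, Complex.norm_cpow_real]

theorem measurable_KM {M : ℕ} {y : ℝ} (hy : 0 < y) (w : ℝ) (g : Fin n → ℝ) :
    Measurable (KM M n y w g) := by
  have h : KM M n y w g = fun z => (Real.Gamma (((n : ℝ) + 1) / 2 + M) : ℂ) *
      rate y w g z ^ (-((((n : ℝ) + 1) / 2 + M : ℝ) : ℂ)) := funext fun z => KM_eq hy w g z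
  rw [h]
  have hq : Measurable fun z : Fin n → ℝ => q g z := by
    unfold q
    fun_prop
  unfold rate
  fun_prop

theorem norm_KM_le {M : ℕ} {y : ℝ} (hy : 0 < y) (w : ℝ) (g z : Fin n → ℝ) :
    ‖KM M n y w g z‖ ≤ (Real.Gamma (((n : ℝ) + 1) / 2 + M) * ((2 * π * y) ^ M)⁻¹ /
      Real.Gamma (((n : ℝ) + 1) / 2)) * ‖Ker n y w g z‖ := by
  have h0 : 2 * π * y ≤ ‖rate y w g z‖ := by
    have h := Complex.abs_re_le_norm (rate y w g z)
    rw [rate_re, abs_of_pos (by positivity)] at h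
    exact h
  have hr : 0 < ‖rate y w g z‖ := lt_of_lt_of_le (by positivity) h0
  have hG : 0 < Real.Gamma (((n : ℝ) + 1) / 2) := Real.Gamma_pos_of_pos (by positivity)
  have hG' : 0 < Real.Gamma (((n : ℝ) + 1) / 2 + M) := Real.Gamma_pos_of_pos (by positivity)
  rw [norm_KM hy, norm_Ker hy]
  change _ ≤ _ * (_ / ‖rate y w g z‖ ^ (((n : ℝ) + 1) / 2))
  rw [neg_add, Real.rpow_add hr, Real.rpow_neg hr.le, Real.rpow_neg hr.le, Real.rpow_natCast]
  have h1 : (‖rate y w g z‖ ^ M)⁻¹ ≤ ((2 * π * y) ^ M)⁻¹ :=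
    inv_anti₀ (by positivity) (pow_le_pow_left₀ (by positivity) h0 M)
  have h2 : 0 < (‖rate y w g z‖ ^ (((n : ℝ) + 1) / 2))⁻¹ := by positivity
  calc Real.Gamma (((n : ℝ) + 1) / 2 + M) * ((‖rate y w g z‖ ^ (((n : ℝ) + 1) / 2))⁻¹ *
        (‖rate y w g z‖ ^ M)⁻¹)
      ≤ Real.Gamma (((n : ℝ) + 1) / 2 + M) * ((‖rate y w g z‖ ^ (((n : ℝ) + 1) / 2))⁻¹ *
        ((2 * π * y) ^ M)⁻¹) := by gcongr
    _ = _ := by
        field_simp

theorem integrable_KM {M : ℕ} (hn : 1 ≤ n) {y : ℝ} (hy : 0 < y) (w : ℝ) {g : Fin n → ℝ}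
    (hg : ∀ i, 0 < g i) : Integrable (KM M n y w g) :=
  Integrable.mono' ((integrable_Ker hn hy w hg).norm.const_mul _)
    (measurable_KM hy w g).aestronglyMeasurable (Eventually.of_forall fun z => norm_KM_le hy w g z)

/-- the weight in the definition of the kernel -/
noncomputable def phM (M n : ℕ) (y s : ℝ) : ℝ :=
  s ^ (((n : ℝ) - 1) / 2 + M) * Real.exp (-(2 * π * s * y))

theorem phM_nonneg {M : ℕ} {y s : ℝ} (hs : 0 < s) : 0 ≤ phM M n y s := by
  unfold phM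
  have := Real.rpow_nonneg hs.le (((n : ℝ) - 1) / 2 + M)
  positivity

theorem phM_int (M n : ℕ) {y : ℝ} (hy : 0 < y) : IntegrableOn (phM M n y) (Ioi 0) := by
  have h := int_pow_exp (a := ((n : ℝ) + 1) / 2 + M) (ε := 2 * π * y) (by positivity)
    (by positivity)
  refine h.congr_fun ?_ measurableSet_Ioi
  intro s _
  unfold phM
  beta_reduce
  rw [show ((n : ℝ) + 1) / 2 + M - 1 = ((n : ℝ) - 1) / 2 + M by ring,
    show 2 * π * y * s = 2 * π * s * y by ring]

theorem fubM {M : ℕ} {d y : ℝ} (hd : 0 < d) (hy : 0 < y) {g : Fin n → ℝ} (hg : ∀ i, 0 < g i)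
    (w : ℝ) (ξ : Fin n → ℝ) :
    ∫ z : Fin n → ℝ, ch ξ z * ((Real.exp (-(π * d * q g z)) : ℝ) : ℂ) * KM M n y w g z =
      ∫ s in Ioi (0 : ℝ), ((phM M n y s : ℝ) : ℂ) *
        (Complex.exp (((π * s * w : ℝ) : ℂ) * Complex.I) *
        ((((∏ i, g i) ^ (-(1 / 2) : ℝ) : ℝ) : ℂ) * ((Pool.Agent.T9h82.LS.bet d s)⁻¹ ^ (1 / 2 : ℂ)) ^ n *
          Complex.exp (-((π * (∑ i, ξ i ^ 2 / g i) : ℝ) * (Pool.Agent.T9h82.LS.bet d s)⁻¹)))) := by
  have h1 : ∀ z : Fin n → ℝ, ch ξ z * ((Real.exp (-(π * d * q g z)) : ℝ) : ℂ) * KM M n y w g z =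
      ∫ s in Ioi (0 : ℝ), ((phM M n y s : ℝ) : ℂ) *
        (ch ξ z * ((Real.exp (-(π * d * q g z)) : ℝ) : ℂ) * os s (q g z - w)) := by
    intro z
    unfold KM phM
    rw [← integral_const_mul]
    refine integral_congr_ae (Eventually.of_forall fun s => ?_)
    beta_reduce
    ring
  simp_rw [h1]
  rw [integral_integral_swap]
  · refine setIntegral_congr_fun measurableSet_Ioi fun s hs => ?_
    rw [integral_const_mul, gauss_n hd hs hg w ξ]
  · have hdom : Integrable (fun p : (Fin n → ℝ) × ℝ => Real.exp (-(π * d * q g p.1)) *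
        phM M n y p.2) ((volume : Measure (Fin n → ℝ)).prod (volume.restrict (Ioi (0 : ℝ)))) :=
      (gauss_int hd hg).mul_prod (phM_int M n hy)
    have hq : Measurable fun z : Fin n → ℝ => q g z := by
      unfold q
      fun_prop
    refine Integrable.mono' hdom ?_ ?_
    · refine Measurable.aestronglyMeasurable ?_
      unfold Function.uncurry phM ch os
      fun_prop
    · have hmem : ∀ᵐ p : (Fin n → ℝ) × ℝ ∂((volume : Measure (Fin n → ℝ)).prod
          (volume.restrict (Ioi (0 : ℝ)))), p.2 ∈ Ioi (0 : ℝ) :=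
        Measure.quasiMeasurePreserving_snd.ae (ae_restrict_mem measurableSet_Ioi)
      filter_upwards [hmem] with p hp
      have hp' : 0 < p.2 := hp
      unfold Function.uncurry
      rw [norm_mul, norm_mul, norm_mul, norm_ch, Pool.Agent.T9h44.LS4.norm_os, Complex.norm_real,
        Complex.norm_real,
        Real.norm_of_nonneg (phM_nonneg hp'), Real.norm_of_nonneg (Real.exp_pos _).le]
      rw [one_mul, mul_one, mul_comm]

theorem lim_leftM {M : ℕ} (hn : 1 ≤ n) {y : ℝ} (hy : 0 < y) {g : Fin n → ℝ}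
    (hg : ∀ i, 0 < g i) (w : ℝ) (ξ : Fin n → ℝ) :
    Tendsto (fun d : ℝ => ∫ z : Fin n → ℝ, ch ξ z * ((Real.exp (-(π * d * q g z)) : ℝ) : ℂ) *
      KM M n y w g z) (𝓝[>] 0) (𝓝 (∫ z : Fin n → ℝ, ch ξ z * KM M n y w g z)) := by
  have hq : Measurable fun z : Fin n → ℝ => q g z := by
    unfold q
    fun_prop
  have hq0 : ∀ z : Fin n → ℝ, 0 ≤ q g z := fun z =>
    Finset.sum_nonneg fun i _ => mul_nonneg (hg i).le (sq_nonneg _)
  have hch : Measurable (ch ξ) := by
    unfold ch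
    fun_prop
  refine tendsto_integral_filter_of_dominated_convergence (fun z => ‖KM M n y w g z‖) ?_ ?_ ?_ ?_
  · refine Eventually.of_forall fun d => ?_
    refine (Measurable.mul (hch.mul ?_) (measurable_KM hy w g)).aestronglyMeasurable
    fun_prop
  · filter_upwards [self_mem_nhdsWithin] with d hd
    refine Eventually.of_forall fun z => ?_
    have hd' : 0 < d := hd
    rw [norm_mul, norm_mul, norm_ch, one_mul, Complex.norm_real,
      Real.norm_of_nonneg (Real.exp_pos _).le]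
    refine mul_le_of_le_one_left (norm_nonneg _) (Real.exp_le_one_iff.2 ?_)
    have := hq0 z
    have : 0 ≤ π * d * q g z := by positivity
    linarith
  · exact (integrable_KM hn hy w hg).norm
  · refine Eventually.of_forall fun z => ?_
    have h1 : Tendsto (fun d : ℝ => ((Real.exp (-(π * d * q g z)) : ℝ) : ℂ)) (𝓝[>] 0) (𝓝 1) := by
      have hc : Continuous fun d : ℝ => ((Real.exp (-(π * d * q g z)) : ℝ) : ℂ) := by fun_prop
      have := (hc.tendsto 0).mono_left (nhdsWithin_le_nhds (s := Ioi 0))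
      simpa using this
    have h2 := (tendsto_const_nhds (x := ch ξ z)).mul h1
    have h3 := h2.mul (tendsto_const_nhds (x := KM M n y w g z))
    rw [mul_one] at h3
    exact h3

theorem lim_rightM {M : ℕ} {y : ℝ} (hy : 0 < y) (w P N : ℝ) (hN : 0 ≤ N) :
    Tendsto (fun d : ℝ => ∫ s in Ioi (0 : ℝ), ((phM M n y s : ℝ) : ℂ) *
        (Complex.exp (((π * s * w : ℝ) : ℂ) * Complex.I) *
        ((P : ℂ) * ((Pool.Agent.T9h82.LS.bet d s)⁻¹ ^ (1 / 2 : ℂ)) ^ n *
          Complex.exp (-((π * N : ℝ) * (Pool.Agent.T9h82.LS.bet d s)⁻¹))))) (𝓝[>] 0)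
      (𝓝 (∫ s in Ioi (0 : ℝ), ((phM M n y s : ℝ) : ℂ) *
        (Complex.exp (((π * s * w : ℝ) : ℂ) * Complex.I) *
        ((P : ℂ) * ((Pool.Agent.T9h82.LS.bet 0 s)⁻¹ ^ (1 / 2 : ℂ)) ^ n *
          Complex.exp (-((π * N : ℝ) * (Pool.Agent.T9h82.LS.bet 0 s)⁻¹)))))) := by
  have hcint : ∀ s : ℝ, 0 < s → Continuous fun d : ℝ => (Pool.Agent.T9h82.LS.bet d s)⁻¹ := by
    intro s hs
    refine Continuous.inv₀ ?_ fun d => bet_ne hs
    unfold Pool.Agent.T9h82.LS.bet
    fun_prop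
  have hslit : ∀ d s : ℝ, 0 < s → (Pool.Agent.T9h82.LS.bet d s)⁻¹ ∈ Complex.slitPlane := by
    intro d s hs
    refine Or.inr ?_
    rw [Complex.inv_im, Pool.Agent.T9h82.LS.bet_im]
    have : 0 < Complex.normSq (Pool.Agent.T9h82.LS.bet d s) := Complex.normSq_pos.2 (bet_ne hs)
    exact div_ne_zero (by linarith) this.ne'
  refine tendsto_integral_filter_of_dominated_convergence
    (fun s => |P| * (s ^ ((1 / 2 + M : ℝ) - 1) * Real.exp (-((2 * π * y) * s)))) ?_ ?_ ?_ ?_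
  · refine Eventually.of_forall fun d => ?_
    refine Measurable.aestronglyMeasurable ?_
    unfold phM Pool.Agent.T9h82.LS.bet
    fun_prop
  · filter_upwards [self_mem_nhdsWithin] with d hd
    have hd' : 0 < d := hd
    filter_upwards [ae_restrict_mem measurableSet_Ioi] with s hs
    have hs' : 0 < s := hs
    have e1 : ‖(Pool.Agent.T9h82.LS.bet d s)⁻¹ ^ (1 / 2 : ℂ)‖ ≤ s ^ (-(1 / 2) : ℝ) := by
      rw [show (1 / 2 : ℂ) = ((1 / 2 : ℝ) : ℂ) by push_cast; rfl, Complex.norm_cpow_real,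
        Real.rpow_neg hs'.le, ← Real.inv_rpow hs'.le]
      exact Real.rpow_le_rpow (norm_nonneg _) (norm_bet_inv_le hs') (by norm_num)
    have e2 : ‖Complex.exp (-((π * N : ℝ) * (Pool.Agent.T9h82.LS.bet d s)⁻¹))‖ ≤ 1 := by
      rw [Complex.norm_exp, Complex.neg_re, Complex.re_ofReal_mul, Real.exp_le_one_iff]
      have := re_bet_inv_nonneg (d := d) (s := s) hd'.le
      have : 0 ≤ π * N * ((Pool.Agent.T9h82.LS.bet d s)⁻¹).re := by positivity
      linarith
    have e3 : ‖((Pool.Agent.T9h82.LS.bet d s)⁻¹ ^ (1 / 2 : ℂ)) ^ n‖ ≤ (s ^ (-(1 / 2) : ℝ)) ^ n := by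
      rw [norm_pow]
      exact pow_le_pow_left₀ (norm_nonneg _) e1 n
    have e4 : phM M n y s * (s ^ (-(1 / 2) : ℝ)) ^ n =
        s ^ ((1 / 2 + M : ℝ) - 1) * Real.exp (-((2 * π * y) * s)) := by
      unfold phM
      rw [← Real.rpow_natCast, ← Real.rpow_mul hs'.le, mul_right_comm, ← Real.rpow_add hs']
      congr 2
      · ring
      · ring
    rw [norm_mul, norm_mul, norm_mul, norm_mul, Complex.norm_real, Complex.norm_real,
      Real.norm_of_nonneg (phM_nonneg hs'), Complex.norm_exp_ofReal_mul_I, one_mul,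
      Real.norm_eq_abs]
    calc phM M n y s * (|P| * ‖((Pool.Agent.T9h82.LS.bet d s)⁻¹ ^ (1 / 2 : ℂ)) ^ n‖ *
          ‖Complex.exp (-((π * N : ℝ) * (Pool.Agent.T9h82.LS.bet d s)⁻¹))‖) ≤
          phM M n y s * (|P| * (s ^ (-(1 / 2) : ℝ)) ^ n * 1) := by
          refine mul_le_mul_of_nonneg_left ?_ (phM_nonneg hs')
          refine mul_le_mul (mul_le_mul_of_nonneg_left e3 (abs_nonneg _)) e2 (norm_nonneg _) ?_
          have := Real.rpow_nonneg hs'.le (-(1 / 2))
          positivity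
      _ = |P| * (phM M n y s * (s ^ (-(1 / 2) : ℝ)) ^ n) := by ring
      _ = _ := by rw [e4]
  · exact (int_pow_exp (a := 1 / 2 + M) (ε := 2 * π * y) (by positivity) (by positivity)).const_mul _
  · filter_upwards [ae_restrict_mem measurableSet_Ioi] with s hs
    have hs' : 0 < s := hs
    have h1 := ((hcint s hs').tendsto 0).mono_left (nhdsWithin_le_nhds (s := Ioi 0))
    have h2 : Tendsto (fun d : ℝ => (Pool.Agent.T9h82.LS.bet d s)⁻¹ ^ (1 / 2 : ℂ)) (𝓝[>] 0)
        (𝓝 ((Pool.Agent.T9h82.LS.bet 0 s)⁻¹ ^ (1 / 2 : ℂ))) :=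
      (continuousAt_cpow_const (hslit 0 s hs')).tendsto.comp h1
    have h3 := (h2.pow n).const_mul (P : ℂ)
    have h4 := (h1.const_mul ((π * N : ℝ) : ℂ)).neg.cexp
    exact ((h3.mul h4).const_mul _).const_mul _

/-- the Fourier transform of the kernel as an integral over `s` -/
theorem hatM {M : ℕ} (hn : 1 ≤ n) {y : ℝ} (hy : 0 < y) {g : Fin n → ℝ} (hg : ∀ i, 0 < g i)
    (w : ℝ) (ξ : Fin n → ℝ) :
    ∫ z : Fin n → ℝ, ch ξ z * KM M n y w g z =
      ∫ s in Ioi (0 : ℝ), ((phM M n y s : ℝ) : ℂ) *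
        (Complex.exp (((π * s * w : ℝ) : ℂ) * Complex.I) *
        ((((∏ i, g i) ^ (-(1 / 2) : ℝ) : ℝ) : ℂ) * ((Pool.Agent.T9h82.LS.bet 0 s)⁻¹ ^ (1 / 2 : ℂ)) ^ n *
          Complex.exp (-((π * (∑ i, ξ i ^ 2 / g i) : ℝ) * (Pool.Agent.T9h82.LS.bet 0 s)⁻¹)))) := by
  have hN0 : 0 ≤ ∑ i, ξ i ^ 2 / g i :=
    Finset.sum_nonneg fun i _ => div_nonneg (sq_nonneg _) (hg i).le
  have hL := lim_leftM (M := M) hn hy hg w ξ
  have hR := lim_rightM (M := M) (n := n) hy w ((∏ i, g i) ^ (-(1 / 2) : ℝ)) _ hN0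
  refine tendsto_nhds_unique (hL.congr' ?_) hR
  filter_upwards [self_mem_nhdsWithin] with d hd
  exact fubM hd hy hg w ξ

end Pool.Agent.T9h71.LG
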